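import Pool.Agent.Helper80.VR.Defs
import Pool.Agent.Helper5.SV.Main

/-!
# VR-AF: the vectors (1, x)

Let `S` be a finite set of points of `Fin m → ℝ` with affine span `⊤`, `ι = S` (subtype) and
`v x = Fin.cons 1 x`. `Helper5.SV.G` of a family of points is our `G` of the vectors, and
`simplexVolume x = |G x| * V m`, `V m > 0` (`simplexVolume_eq`).
`ratio_lift`: for `f g` with `G v g ≠ 0`: the points `g k` are distinct, `|G v g| * V m` is a positive
member of `simplexVolumes S`, so `≥ smallest S > 0`; `|G v f| * V m ≤ largest S` (if `f` is not injective then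
`G v f = 0`). Hence `|G v f| ≤ (largest / smallest) * |G v g|`. (See `main_set` in
`Helper5/SV/Main.lean`, where all these facts are proved inside the proof.)
`span_lift`: `(1, x)`, `x ∈ S`, span `Fin (m+1) → ℝ`: by `enum`/`affineIndependent_iff_G` there are `m+1`
points with `G ≠ 0`.
`pair_lift`: `(1, x)` and `(1, y)` are independent for `x ≠ y`.
-/

namespace Pool.Agent.Helper80.VR

open Finset

/-- the lifted vectors -/
noncomputable def lift {m : ℕ} (S : Finset (Fin m → ℝ)) : {x // x ∈ S} → Fin (m + 1) → ℝ :=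
  fun x => Fin.cons 1 (x : Fin m → ℝ)

theorem pair_lift {m : ℕ} (S : Finset (Fin m → ℝ)) (x y : {x // x ∈ S}) (hxy : x ≠ y) :
    LinearIndependent ℝ ![lift S x, lift S y] := by
  rw [LinearIndependent.pair_iff]
  intro s t h
  have h0 : s + t = 0 := by
    have := congrFun h 0
    simpa [lift] using this
  have hne : (x : Fin m → ℝ) ≠ (y : Fin m → ℝ) := fun h => hxy (Subtype.ext h)
  obtain ⟨j, hj⟩ := Function.ne_iff.1 hne
  have h1 : s * (x : Fin m → ℝ) j + t * (y : Fin m → ℝ) j = 0 := by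
    have := congrFun h j.succ
    simpa [lift] using this
  have ht : t = -s := by linarith
  have h2 : s * ((x : Fin m → ℝ) j - (y : Fin m → ℝ) j) = 0 := by
    rw [ht] at h1
    linarith
  have hs : s = 0 := by
    rcases mul_eq_zero.1 h2 with h3 | h3
    · exact h3
    · exact absurd (sub_eq_zero.1 h3) hj
  exact ⟨hs, by rw [ht, hs, neg_zero]⟩

theorem exists_G71 {m : ℕ} (S : Finset (Fin m → ℝ))
    (hS : affineSpan ℝ (S : Set (Fin m → ℝ)) = ⊤) :
    ∃ x : Fin (m + 1) → (Fin m → ℝ), (∀ i, x i ∈ S) ∧ Helper5.SV.G x ≠ 0 := by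
  obtain ⟨t, htS, hts, hti⟩ := exists_affineIndependent ℝ (Fin m → ℝ) (S : Set (Fin m → ℝ))
  rw [hS] at hts
  obtain ⟨x0, hx0, hx0i⟩ := Helper5.SV.enum t (S.finite_toSet.subset htS) hts hti
  exact ⟨x0, fun i => by
    have : x0 i ∈ t := hx0 ▸ ⟨i, rfl⟩
    exact htS this, Helper5.SV.affineIndependent_iff_G x0 hx0i⟩

theorem span_lift {m : ℕ} (S : Finset (Fin m → ℝ))
    (hS : affineSpan ℝ (S : Set (Fin m → ℝ)) = ⊤) :
    Submodule.span ℝ (Set.range (lift S)) = ⊤ := by
  classical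
  obtain ⟨x, hxS, hG⟩ := exists_G71 S hS
  have hli : LinearIndependent ℝ (fun k : Fin (m + 1) => lift S ⟨x k, hxS k⟩) := by
    have h1 : IsUnit (Matrix.of fun i : Fin (m + 1) =>
        (Fin.cons 1 (x i) : Fin (m + 1) → ℝ)) := by
      rw [Matrix.isUnit_iff_isUnit_det]
      exact isUnit_iff_ne_zero.2 hG
    exact Matrix.linearIndependent_rows_iff_isUnit.2 h1
  have h2 : Submodule.span ℝ (Set.range fun k : Fin (m + 1) => lift S ⟨x k, hxS k⟩) = ⊤ := by
    apply hli.span_eq_top_of_card_eq_finrank'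
    simp
  rw [eq_top_iff, ← h2]
  apply Submodule.span_mono
  rintro _ ⟨k, rfl⟩
  exact ⟨_, rfl⟩

theorem ratio_lift {m : ℕ} (S : Finset (Fin m → ℝ))
    (hS : affineSpan ℝ (S : Set (Fin m → ℝ)) = ⊤) :
    Ratio (lift S) (Helper5.SV.largest (S : Set (Fin m → ℝ))
      / Helper5.SV.smallest (S : Set (Fin m → ℝ))) := by
  classical
  intro f g hg
  have hGeq : ∀ h : Fin (m + 1) → {x // x ∈ S},
      G (lift S) h = Helper5.SV.G (fun k => (h k : Fin m → ℝ)) := fun h => rfl
  have hinj0 : ∀ h : Fin (m + 1) → {x // x ∈ S}, G (lift S) h ≠ 0 →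
      Function.Injective (fun k => (h k : Fin m → ℝ)) := by
    intro h hh a b hab
    by_contra hne
    apply hh
    unfold G
    apply Matrix.det_zero_of_row_eq hne
    have hab' : h a = h b := Subtype.ext hab
    funext l
    simp [Matrix.of_apply, hab']
  have hV : 0 < Helper5.SV.V m := Helper5.SV.V_pos m
  have hvol : ∀ h : Fin (m + 1) → {x // x ∈ S},
      Helper5.SV.simplexVolume (fun k => (h k : Fin m → ℝ)) = |G (lift S) h| * Helper5.SV.V m := by
    intro h
    rw [Helper5.SV.simplexVolume_eq, hGeq]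
  have hbdd : BddAbove (Helper5.SV.simplexVolumes (S : Set (Fin m → ℝ))) :=
    (Helper5.SV.finite_volumes S).bddAbove
  have hPbdd : BddBelow {v | v ∈ Helper5.SV.simplexVolumes (S : Set (Fin m → ℝ)) ∧ 0 < v} :=
    ⟨0, fun v hv => hv.2.le⟩
  have hgmem : |G (lift S) g| * Helper5.SV.V m ∈
      {v | v ∈ Helper5.SV.simplexVolumes (S : Set (Fin m → ℝ)) ∧ 0 < v} := by
    refine ⟨⟨fun k => (g k : Fin m → ℝ), hinj0 g hg, fun i => (g i).2, (hvol g).symm⟩, ?_⟩
    exact mul_pos (abs_pos.2 hg) hV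
  have hsmle : Helper5.SV.smallest (S : Set (Fin m → ℝ)) ≤ |G (lift S) g| * Helper5.SV.V m :=
    csInf_le hPbdd hgmem
  have hPfin : {v | v ∈ Helper5.SV.simplexVolumes (S : Set (Fin m → ℝ)) ∧ 0 < v}.Finite :=
    (Helper5.SV.finite_volumes S).subset (fun v hv => hv.1)
  have hsm : 0 < Helper5.SV.smallest (S : Set (Fin m → ℝ)) := by
    have hmem : Helper5.SV.smallest (S : Set (Fin m → ℝ)) ∈
        {v | v ∈ Helper5.SV.simplexVolumes (S : Set (Fin m → ℝ)) ∧ 0 < v} :=
      Set.Nonempty.csInf_mem ⟨_, hgmem⟩ hPfin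
    exact hmem.2
  have hlarge : 0 ≤ Helper5.SV.largest (S : Set (Fin m → ℝ)) :=
    le_trans hgmem.2.le (le_csSup hbdd hgmem.1)
  have hfle : |G (lift S) f| * Helper5.SV.V m ≤ Helper5.SV.largest (S : Set (Fin m → ℝ)) := by
    by_cases hf : G (lift S) f = 0
    · rw [hf, abs_zero, zero_mul]; exact hlarge
    · apply le_csSup hbdd
      exact ⟨fun k => (f k : Fin m → ℝ), hinj0 f hf, fun i => (f i).2, (hvol f).symm⟩
  rw [div_mul_eq_mul_div, le_div_iff₀ hsm]
  have h1 : |G (lift S) f| * Helper5.SV.smallest (S : Set (Fin m → ℝ))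
      ≤ |G (lift S) f| * (|G (lift S) g| * Helper5.SV.V m) :=
    mul_le_mul_of_nonneg_left hsmle (abs_nonneg _)
  have h2 : |G (lift S) f| * Helper5.SV.V m * |G (lift S) g|
      ≤ Helper5.SV.largest (S : Set (Fin m → ℝ)) * |G (lift S) g| :=
    mul_le_mul_of_nonneg_right hfle (abs_nonneg _)
  calc |G (lift S) f| * Helper5.SV.smallest (S : Set (Fin m → ℝ))
      ≤ |G (lift S) f| * (|G (lift S) g| * Helper5.SV.V m) := h1
    _ = |G (lift S) f| * Helper5.SV.V m * |G (lift S) g| := by ring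
    _ ≤ _ := h2

end Pool.Agent.Helper80.VR
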