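import Pool.Agent.Helper80.VR.Main
import Pool.Agent.Helper80.VR.Affine

/-!
# VR: f_m(n) >= (n + m^2 - 1) / (2 m (m + 1))
-/

namespace Pool.Agent.Helper80.VR

open Finset

theorem set_bound {m : ℕ} (hm : 1 ≤ m) (S : Finset (Fin m → ℝ))
    (hS : affineSpan ℝ (S : Set (Fin m → ℝ)) = ⊤) (hc : 2 ≤ #S) :
    ((#S : ℝ) + m ^ 2 - 1) / (2 * m * (m + 1))
      ≤ Helper5.SV.largest (S : Set (Fin m → ℝ)) / Helper5.SV.smallest (S : Set (Fin m → ℝ)) := by
  set D := Helper5.SV.largest (S : Set (Fin m → ℝ)) / Helper5.SV.smallest (S : Set (Fin m → ℝ))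
    with hD
  have h := card_le (by omega : 1 ≤ m + 1) (lift S) (span_lift S hS) (ratio_lift S hS)
    (pair_lift S) (by rw [Fintype.card_coe]; exact hc)
  rw [Fintype.card_coe, ← hD] at h
  push_cast at h
  have hm0 : (1 : ℝ) ≤ m := by exact_mod_cast hm
  rw [div_le_iff₀ (by positivity)]
  nlinarith

theorem main (m n : ℕ) (hm : 1 ≤ m) (hn : m + 1 ≤ n) :
    ((n : ℝ) + m ^ 2 - 1) / (2 * m * (m + 1)) ≤ Helper5.SV.ratio m n := by
  apply le_csInf
  · obtain ⟨k, rfl⟩ : ∃ k, m = k + 1 := ⟨m - 1, by omega⟩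
    obtain ⟨S, h1, h2⟩ := Helper5.SV.exists_set k n (by omega)
    exact ⟨_, S, h1, h2, rfl⟩
  · rintro r ⟨S, hc, hS, rfl⟩
    have := set_bound hm S hS (by omega)
    rw [hc] at this
    exact this

end Pool.Agent.Helper80.VR
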