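import Pool.Agent.Helper80.VR.Defs

/-!
# VR-C: contraction of one vector

Proof. Choose a linear equivalence `e` of `Fin (r+1) → ℝ` with `e (v i0) = Pi.single 0 1`
(e.g. `SeparatingDual.exists_continuousLinearEquiv_apply_eq`, both vectors are nonzero) and put
`T x = Fin.tail (e x)`, i.e. `T x k = e x k.succ`.  `T` is surjective (preimage of `y`:
`e.symm (Fin.cons 0 y)`).  `ker T`: `T x = 0` iff `e x = (e x 0) • Pi.single 0 1 = e ((e x 0) • v i0)`.
Determinants: let `A` be the matrix of `e`. For `f : Fin r → ι` the matrix with rows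
`e (v i0), e (v (f k))` is `(rows) * Aᵀ`, so its determinant is `det A * G v (Fin.cons i0 f)`
(alternatively `LinearMap.det`), and expanding along row `0 = Pi.single 0 1`
(`Matrix.det_succ_row_zero`) it is `G (fun j => T (v j)) f`.
So `G (T ∘ v) f = c * G v (Fin.cons i0 f)` with `c = det A ≠ 0`, and `Ratio` follows.
-/

namespace Pool.Agent.Helper80.VR

open Finset

private theorem det_cons_single {r : ℕ} (B : Matrix (Fin (r + 1)) (Fin (r + 1)) ℝ)
    (h : B 0 = Pi.single 0 1) :
    B.det = (Matrix.of fun (i j : Fin r) => B i.succ j.succ).det := by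
  rw [Matrix.det_succ_row_zero, Fin.sum_univ_succ]
  have h0 : ∀ j : Fin r, B 0 j.succ = 0 := by
    intro j
    rw [h]
    exact Pi.single_eq_of_ne (Fin.succ_ne_zero j) _
  have h1 : B 0 0 = 1 := by
    rw [h]
    exact Pi.single_eq_same _ _
  have h2 : ∑ j : Fin r, (-1 : ℝ) ^ ((j.succ : Fin (r + 1)) : ℕ) * B 0 j.succ
      * (B.submatrix Fin.succ (j.succ.succAbove)).det = 0 := by
    apply Finset.sum_eq_zero
    intro j _
    rw [h0 j]
    ring
  rw [h2, h1]
  simp only [Fin.val_zero, pow_zero, one_mul, add_zero]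
  congr 1

theorem contract {ι : Type} {r : ℕ} (v : ι → Fin (r + 1) → ℝ) {D : ℝ} (hD : Ratio v D)
    (i0 : ι) (h0 : v i0 ≠ 0) :
    ∃ T : (Fin (r + 1) → ℝ) →ₗ[ℝ] (Fin r → ℝ), Function.Surjective T ∧
      LinearMap.ker T = Submodule.span ℝ {v i0} ∧ Ratio (fun j => T (v j)) D := by
  classical
  have hs : (Pi.single 0 1 : Fin (r + 1) → ℝ) ≠ 0 := by
    intro h
    have := congrFun h 0
    rw [Pi.single_eq_same] at this
    exact one_ne_zero this
  obtain ⟨A, hA⟩ := SeparatingDual.exists_continuousLinearEquiv_apply_eq (R := ℝ) h0 hs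
  let e : (Fin (r + 1) → ℝ) ≃ₗ[ℝ] (Fin (r + 1) → ℝ) := A.toLinearEquiv
  have he : e (v i0) = Pi.single 0 1 := hA
  let T : (Fin (r + 1) → ℝ) →ₗ[ℝ] (Fin r → ℝ) := (LinearMap.funLeft ℝ ℝ Fin.succ).comp
    (e : (Fin (r + 1) → ℝ) →ₗ[ℝ] (Fin (r + 1) → ℝ))
  have hT : ∀ x k, T x k = e x (Fin.succ k) := fun x k => rfl
  refine ⟨T, ?_, ?_, ?_⟩
  · intro y
    refine ⟨e.symm (Fin.cons 0 y), ?_⟩
    funext k
    rw [hT, LinearEquiv.apply_symm_apply, Fin.cons_succ]
  · ext x
    rw [LinearMap.mem_ker, Submodule.mem_span_singleton]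
    constructor
    · intro hx
      refine ⟨e x 0, ?_⟩
      apply e.injective
      rw [map_smul, he]
      funext k
      refine Fin.cases ?_ (fun k => ?_) k
      · simp
      · have h1 : e x (Fin.succ k) = 0 := by
          rw [← hT, hx]
          rfl
        rw [h1]
        simp
    · rintro ⟨a, rfl⟩
      funext k
      rw [hT, map_smul, he]
      simp
  · -- determinants
    set E : Matrix (Fin (r + 1)) (Fin (r + 1)) ℝ :=
      LinearMap.toMatrix' (e : (Fin (r + 1) → ℝ) →ₗ[ℝ] (Fin (r + 1) → ℝ)) with hE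
    have hEmul : ∀ x, E.mulVec x = e x := by
      intro x
      rw [hE, LinearMap.toMatrix'_mulVec]
      rfl
    have hEdet : E.det ≠ 0 := by
      rw [hE, LinearMap.det_toMatrix']
      exact (LinearEquiv.isUnit_det' e).ne_zero
    have hG : ∀ f : Fin r → ι, G (fun j => T (v j)) f = G v (Fin.cons i0 f) * E.det := by
      intro f
      unfold G
      have h1 : ((Matrix.of fun k : Fin (r + 1) => v ((Fin.cons i0 f : Fin (r + 1) → ι) k))
          * E.transpose).det
          = (Matrix.of fun k : Fin r => T (v (f k))).det := by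
        rw [det_cons_single]
        · congr 1
          ext i j
          simp only [Matrix.of_apply, hT, Matrix.mul_apply, Matrix.transpose_apply, Fin.cons_succ]
          rw [← hEmul]
          simp only [Matrix.mulVec, dotProduct]
          exact Finset.sum_congr rfl fun k _ => mul_comm _ _
        · funext j
          rw [← he, ← hEmul]
          simp only [Matrix.of_apply, Matrix.mul_apply, Matrix.transpose_apply, Fin.cons_zero,
            Matrix.mulVec, dotProduct]
          exact Finset.sum_congr rfl fun k _ => mul_comm _ _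
      rw [← h1, Matrix.det_mul, Matrix.det_transpose]
    intro f g hg
    rw [hG f, hG g, abs_mul, abs_mul]
    rw [hG g] at hg
    have h1 := hD (Fin.cons i0 f) (Fin.cons i0 g) (left_ne_zero_of_mul hg)
    have h2 : 0 ≤ |E.det| := abs_nonneg _
    calc |G v (Fin.cons i0 f)| * |E.det| ≤ (D * |G v (Fin.cons i0 g)|) * |E.det| := by gcongr
      _ = D * (|G v (Fin.cons i0 g)| * |E.det|) := by ring

end Pool.Agent.Helper80.VR
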