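import Pool.Agent.Helper80.VR.Defs

/-!
# VR-CT: double counting

`decomp`: for each ordered pair `i ≠ j` there is exactly one `P ∈ L` containing both; exchange sums.
`exists_avg`: by `decomp` with `F = 1`: `n (n - 1) = ∑ P, s P (s P - 1)`, `s P = P.card`, and
`∑ i, #{P ∈ L | i ∈ P} = ∑ P, s P`. With `ρ = r/n` the hypothesis `hmain` divided by `ρ ^ 2` is
`n + ∑ P, (s P ^ 2 / 2 - s P) ≤ n ^ 2 / r`, i.e. `n + (n (n - 1) - ∑ s P)/2 ≤ n ^ 2 / r`, so
`∑ P, s P ≥ n ^ 2 (1 - 2/r) + n`. If all `#{P ∈ L | i ∈ P} < n (1 - 2/r) + 1`, summation over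
`i` gives a contradiction.
-/

namespace Pool.Agent.Helper80.VR

open Finset

theorem decomp {ι : Type} [Fintype ι] [DecidableEq ι] (L : Finset (Finset ι)) (hL : Linear L)
    (F : ι → ι → ℝ) :
    ∑ i, ∑ j, F i j = ∑ i, F i i + ∑ P ∈ L, (∑ i ∈ P, ∑ j ∈ P, F i j - ∑ i ∈ P, F i i) := by
  have h1 : ∀ P : Finset ι, ∑ i ∈ P, ∑ j ∈ P, F i j - ∑ i ∈ P, F i i =
      ∑ i, ∑ j, if i ∈ P ∧ j ∈ P then (if i = j then 0 else F i j) else 0 := by
    intro P
    rw [← Finset.sum_sub_distrib, ← Finset.sum_subset (Finset.subset_univ P)]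
    · apply Finset.sum_congr rfl
      intro i hi
      rw [← Finset.sum_subset (Finset.subset_univ P)]
      · have h2 : ∑ j ∈ P, F i j = ∑ j ∈ P, ((if i = j then 0 else F i j) + if i = j then F i j else 0) := by
          apply Finset.sum_congr rfl
          intro j _
          by_cases hij : i = j <;> simp [hij]
        rw [h2, Finset.sum_add_distrib, Finset.sum_ite_eq P i, if_pos hi, add_sub_cancel_right]
        apply Finset.sum_congr rfl
        intro j hj
        simp only [hi, hj, and_self, if_true]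
      · intro j _ hj
        rw [if_neg (fun h => hj h.2)]
    · intro i _ hi
      apply Finset.sum_eq_zero
      intro j _
      rw [if_neg (fun h => hi h.1)]
  have h3 : ∑ P ∈ L, (∑ i ∈ P, ∑ j ∈ P, F i j - ∑ i ∈ P, F i i) =
      ∑ i, ∑ j, if i = j then 0 else F i j := by
    rw [Finset.sum_congr rfl (fun P _ => h1 P), Finset.sum_comm]
    apply Finset.sum_congr rfl
    intro i _
    rw [Finset.sum_comm]
    apply Finset.sum_congr rfl
    intro j _
    by_cases hij : i = j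
    · simp [hij]
    · obtain ⟨P, ⟨hPL, hi, hj⟩, huniq⟩ := hL i j hij
      rw [Finset.sum_eq_single P, if_pos ⟨hi, hj⟩]
      · intro Q hQ hne
        rw [if_neg]
        rintro ⟨hiQ, hjQ⟩
        exact hne (huniq Q ⟨hQ, hiQ, hjQ⟩)
      · intro hP
        exact absurd hPL hP
  rw [h3, ← Finset.sum_add_distrib]
  apply Finset.sum_congr rfl
  intro i _
  have h2 : ∑ j, F i j = ∑ j, ((if i = j then 0 else F i j) + if i = j then F i j else 0) := by
    apply Finset.sum_congr rfl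
    intro j _
    by_cases hij : i = j <;> simp [hij]
  rw [h2, Finset.sum_add_distrib, Finset.sum_ite_eq Finset.univ i, if_pos (Finset.mem_univ i), add_comm]

theorem exists_avg {ι : Type} [Fintype ι] [DecidableEq ι] [Nonempty ι] (L : Finset (Finset ι))
    (hL : Linear L) (r : ℝ) (hr : 0 < r)
    (hmain : (Fintype.card ι : ℝ) * (r / Fintype.card ι) ^ 2
      + ∑ P ∈ L, ((#P * (r / Fintype.card ι)) ^ 2 / 2 - #P * (r / Fintype.card ι) ^ 2) ≤ r) :
    ∃ i : ι, (Fintype.card ι : ℝ) * (1 - 2 / r) + 1 ≤ #{P ∈ L | i ∈ P} := by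
  by_contra hcon
  push Not at hcon
  have hn : (0 : ℝ) < Fintype.card ι := by exact_mod_cast Fintype.card_pos
  have hsum : ∑ i : ι, (#{P ∈ L | i ∈ P} : ℝ) = ∑ P ∈ L, (#P : ℝ) := by
    have h1 : ∀ i : ι, (#{P ∈ L | i ∈ P} : ℝ) = ∑ P ∈ L, if i ∈ P then 1 else 0 := by
      intro i
      rw [Finset.card_filter]
      push_cast
      rfl
    rw [Finset.sum_congr rfl (fun i _ => h1 i), Finset.sum_comm]
    apply Finset.sum_congr rfl
    intro P _
    rw [Finset.sum_ite_mem, Finset.univ_inter]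
    simp
  have hlt : ∑ P ∈ L, (#P : ℝ) < Fintype.card ι * ((Fintype.card ι : ℝ) * (1 - 2 / r) + 1) := by
    rw [← hsum]
    calc ∑ i : ι, (#{P ∈ L | i ∈ P} : ℝ) < ∑ _i : ι, ((Fintype.card ι : ℝ) * (1 - 2 / r) + 1) :=
          Finset.sum_lt_sum_of_nonempty Finset.univ_nonempty (fun i _ => hcon i)
      _ = _ := by rw [Finset.sum_const, Finset.card_univ, nsmul_eq_mul]
  have hd := decomp L hL (fun _ _ => 1)
  simp only [Finset.sum_const, nsmul_eq_mul, mul_one, Finset.card_univ] at hd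
  rw [Finset.sum_sub_distrib] at hd
  have hρ : (0 : ℝ) < (r / Fintype.card ι) ^ 2 := by positivity
  have h4 : ∑ P ∈ L, ((#P * (r / Fintype.card ι)) ^ 2 / 2 - #P * (r / Fintype.card ι) ^ 2) =
      (r / Fintype.card ι) ^ 2 * ((∑ P ∈ L, (#P : ℝ) * #P) / 2 - ∑ P ∈ L, (#P : ℝ)) := by
    rw [Finset.sum_div, ← Finset.sum_sub_distrib, Finset.mul_sum]
    apply Finset.sum_congr rfl
    intro P _
    ring
  rw [h4] at hmain
  have h5 : r = (r / Fintype.card ι) ^ 2 * ((Fintype.card ι : ℝ) ^ 2 / r) := by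
    field_simp
  have h6 : (Fintype.card ι : ℝ) + ((∑ P ∈ L, (#P : ℝ) * #P) / 2 - ∑ P ∈ L, (#P : ℝ)) ≤
      (Fintype.card ι : ℝ) ^ 2 / r := by
    have h7 : (r / Fintype.card ι) ^ 2 * ((Fintype.card ι : ℝ) +
        ((∑ P ∈ L, (#P : ℝ) * #P) / 2 - ∑ P ∈ L, (#P : ℝ))) ≤
        (r / Fintype.card ι) ^ 2 * ((Fintype.card ι : ℝ) ^ 2 / r) := by
      rw [← h5]
      linarith
    exact le_of_mul_le_mul_left h7 hρ
  have h8 : (Fintype.card ι : ℝ) * ((Fintype.card ι : ℝ) * (1 - 2 / r) + 1) =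
      (Fintype.card ι : ℝ) ^ 2 - 2 * ((Fintype.card ι : ℝ) ^ 2 / r) + Fintype.card ι := by
    field_simp
  rw [h8] at hlt
  nlinarith

end Pool.Agent.Helper80.VR
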