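import Mathlib

/-!
# VR (MP_e51904_co): definitions

A finite family `v i` of vectors of `Fin r → ℝ` all of whose nonzero maximal minors are
within a factor `D` of each other.
-/

namespace Pool.Agent.Helper80.VR

open Finset

/-- The determinant of the square matrix with rows `v (f k)`. -/
noncomputable def G {ι : Type} {r : ℕ} (v : ι → Fin r → ℝ) (f : Fin r → ι) : ℝ :=
  Matrix.det (Matrix.of fun k : Fin r => v (f k))

/-- All nonzero maximal minors have absolute values within a factor `D`. -/
def Ratio {ι : Type} {r : ℕ} (v : ι → Fin r → ℝ) (D : ℝ) : Prop :=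
  ∀ f g : Fin r → ι, G v g ≠ 0 → |G v f| ≤ D * |G v g|

/-- the bound -/
noncomputable def H (D : ℝ) (r : ℕ) : ℝ := r + r * (r - 1) * (2 * D - 1)

/-- The line through `i` and `j`: all indices `k` with `v k` in the span of `v i`, `v j`. -/
noncomputable def line {ι : Type} [Fintype ι] {r : ℕ} (v : ι → Fin r → ℝ) (i j : ι) : Finset ι :=
  by classical exact univ.filter fun k => v k ∈ Submodule.span ℝ {v i, v j}

/-- all lines through two different indices -/
noncomputable def lines {ι : Type} [Fintype ι] {r : ℕ} (v : ι → Fin r → ℝ) : Finset (Finset ι) :=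
  by classical exact (univ.filter fun p : ι × ι => p.1 ≠ p.2).image fun p => line v p.1 p.2

/-- every two different indices lie in exactly one member of `L` -/
def Linear {ι : Type} (L : Finset (Finset ι)) : Prop :=
  ∀ i j : ι, i ≠ j → ∃! P : Finset ι, P ∈ L ∧ i ∈ P ∧ j ∈ P

/-- the moment matrix with weights `exp (t i)` -/
noncomputable def M {ι : Type} [Fintype ι] {r : ℕ} (v : ι → Fin r → ℝ) (t : ι → ℝ) :
    Matrix (Fin r) (Fin r) ℝ :=
  ∑ i, Real.exp (t i) • Matrix.vecMulVec (v i) (v i)

end Pool.Agent.Helper80.VR
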