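import Pool.Agent.Helper80.VR.Defs

/-!
# VR-DG: determinant of the moment matrix

`det_rank_one`: matrix determinant lemma (`Matrix.det_add_replicateCol_mul_replicateRow` or
`Matrix.det_one_add_replicateCol_mul_replicateRow`, `vecMulVec` in terms of these).
`M_posDef`: `x ⬝ᵥ M *ᵥ x = ∑ i, exp (t i) * (v i ⬝ᵥ x)^2 ≥ 0` with equality only if `x` is orthogonal to
all `v i`, in particular to the basis `v (f k)`, so `x = 0`.
`det_ge`: let `A0 = ∑ k, exp (t (f k)) • vecMulVec (v (f k)) (v (f k)) = Bᵀ * diagonal (exp ∘ t ∘ f) * B`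
with `B = Matrix.of fun k => v (f k)`, so `det A0 = exp (∑ k, t (f k)) * (G v f)^2`. `f` is injective
(two equal rows otherwise), so `M v t = A0 + ∑ i ∉ range f, exp (t i) • vecMulVec (v i) (v i)`. Add
the remaining terms one by one (`Finset.induction_on`), each partial sum is positive definite and by
`det_rank_one` each step multiplies the determinant by `1 + exp (t i) * (v i ⬝ᵥ A⁻¹ *ᵥ v i) ≥ 1`.
-/

namespace Pool.Agent.Helper80.VR

open Finset

theorem det_rank_one {r : ℕ} (A : Matrix (Fin r) (Fin r) ℝ) (hA : IsUnit A.det) (s : ℝ)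
    (x : Fin r → ℝ) :
    (A + s • Matrix.vecMulVec x x).det = A.det * (1 + s * (x ⬝ᵥ A⁻¹.mulVec x)) := by
  have e : s • Matrix.vecMulVec x x =
      Matrix.replicateCol Unit (s • x) * Matrix.replicateRow Unit x := by
    rw [← Matrix.vecMulVec_eq Unit]
    ext i j
    simp only [Matrix.smul_apply, Matrix.vecMulVec_apply, smul_eq_mul, Pi.smul_apply]
    ring
  rw [e, Matrix.det_add_replicateCol_mul_replicateRow hA]
  congr 1
  rw [Matrix.det_unique, Matrix.add_apply, Matrix.one_apply_eq]
  congr 1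
  rw [Matrix.mul_assoc, Matrix.mul_apply, dotProduct, Finset.mul_sum]
  refine Finset.sum_congr rfl fun i _ => ?_
  rw [Matrix.mul_apply, Matrix.mulVec, dotProduct, Matrix.replicateRow_apply, Finset.mul_sum,
    Finset.mul_sum, Finset.mul_sum]
  refine Finset.sum_congr rfl fun j _ => ?_
  rw [Matrix.replicateCol_apply, Pi.smul_apply, smul_eq_mul]
  ring

private theorem inj_h54 {ι : Type} {r : ℕ} (v : ι → Fin r → ℝ) (f : Fin r → ι)
    (hf : G v f ≠ 0) : Function.Injective f := by
  intro a b hab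
  by_contra h
  refine hf (Matrix.det_zero_of_row_eq h ?_)
  change v (f a) = v (f b)
  rw [hab]

private theorem base_h54 {ι : Type} {r : ℕ} (v : ι → Fin r → ℝ) (t : ι → ℝ)
    (f : Fin r → ι) (hf : G v f ≠ 0) :
    (∑ k, Real.exp (t (f k)) • Matrix.vecMulVec (v (f k)) (v (f k))).PosDef ∧
      (∑ k, Real.exp (t (f k)) • Matrix.vecMulVec (v (f k)) (v (f k))).det =
        Real.exp (∑ k, t (f k)) * (G v f) ^ 2 := by
  have e : (∑ k, Real.exp (t (f k)) • Matrix.vecMulVec (v (f k)) (v (f k))) =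
      Matrix.transpose (Matrix.of fun k => v (f k)) *
        Matrix.diagonal (fun k => Real.exp (t (f k))) * (Matrix.of fun k => v (f k)) := by
    ext i j
    rw [Matrix.mul_apply, Matrix.sum_apply]
    refine Finset.sum_congr rfl fun k _ => ?_
    rw [Matrix.mul_diagonal, Matrix.smul_apply, Matrix.vecMulVec_apply, Matrix.transpose_apply,
      Matrix.of_apply, Matrix.of_apply, smul_eq_mul]
    ring
  rw [e]
  constructor
  · have h := Matrix.PosDef.conjTranspose_mul_mul_same (A := Matrix.diagonal (fun k => Real.exp (t (f k))))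
      (B := (Matrix.of fun k => v (f k) : Matrix (Fin r) (Fin r) ℝ))
      (Matrix.PosDef.diagonal fun k => Real.exp_pos _)
      (Matrix.mulVec_injective_iff_isUnit.2 ((Matrix.isUnit_iff_isUnit_det _).2 (isUnit_iff_ne_zero.2 hf)))
    rwa [Matrix.conjTranspose_eq_transpose_of_trivial] at h
  · rw [Matrix.det_mul, Matrix.det_mul, Matrix.det_transpose, Matrix.det_diagonal, Real.exp_sum]
    unfold G
    ring

private theorem part_h54 {ι : Type} [DecidableEq ι] {r : ℕ} (v : ι → Fin r → ℝ) (t : ι → ℝ)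
    (f : Fin r → ι) (hf : G v f ≠ 0) (T : Finset ι) (hT : Disjoint (univ.image f) T) :
    (∑ i ∈ univ.image f ∪ T, Real.exp (t i) • Matrix.vecMulVec (v i) (v i)).PosDef ∧
      Real.exp (∑ k, t (f k)) * (G v f) ^ 2 ≤
        (∑ i ∈ univ.image f ∪ T, Real.exp (t i) • Matrix.vecMulVec (v i) (v i)).det := by
  induction T using Finset.induction_on with
  | empty =>
    rw [Finset.union_empty, Finset.sum_image fun a _ b _ h => inj_h54 v f hf h]
    exact ⟨(base_h54 v t f hf).1, (base_h54 v t f hf).2.ge⟩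
  | insert i T hi ih =>
    rw [Finset.disjoint_insert_right] at hT
    obtain ⟨h1, h2⟩ := ih hT.2
    rw [Finset.union_insert, Finset.sum_insert (by
      rw [Finset.mem_union]
      push Not
      exact ⟨hT.1, hi⟩), add_comm]
    have hP : (Real.exp (t i) • Matrix.vecMulVec (v i) (v i)).PosSemidef :=
      Matrix.PosSemidef.smul (by
        have h := Matrix.posSemidef_vecMulVec_self_star (v i)
        rwa [star_trivial] at h) (Real.exp_pos _).le
    refine ⟨h1.add_posSemidef hP, ?_⟩
    rw [det_rank_one _ (isUnit_iff_ne_zero.2 h1.det_pos.ne')]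
    refine h2.trans (le_mul_of_one_le_right h1.det_pos.le ?_)
    have h3 := h1.inv.posSemidef.dotProduct_mulVec_nonneg (v i)
    rw [star_trivial] at h3
    nlinarith [mul_nonneg (Real.exp_pos (t i)).le h3]

private theorem all_h54 {ι : Type} [Fintype ι] {r : ℕ} (v : ι → Fin r → ℝ) (t : ι → ℝ)
    (f : Fin r → ι) (hf : G v f ≠ 0) :
    (M v t).PosDef ∧ Real.exp (∑ k, t (f k)) * (G v f) ^ 2 ≤ (M v t).det := by
  classical
  have h := part_h54 v t f hf (univ \ univ.image f) Finset.disjoint_sdiff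
  rw [Finset.union_sdiff_of_subset (Finset.subset_univ _)] at h
  exact h

theorem M_posDef {ι : Type} [Fintype ι] {r : ℕ} (v : ι → Fin r → ℝ) (t : ι → ℝ)
    (f : Fin r → ι) (hf : G v f ≠ 0) : (M v t).PosDef :=
  (all_h54 v t f hf).1

theorem det_ge {ι : Type} [Fintype ι] {r : ℕ} (v : ι → Fin r → ℝ) (t : ι → ℝ)
    (f : Fin r → ι) (hf : G v f ≠ 0) :
    Real.exp (∑ k, t (f k)) * (G v f) ^ 2 ≤ (M v t).det :=
  (all_h54 v t f hf).2

end Pool.Agent.Helper80.VR
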