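import Pool.Agent.Helper80.VR.Planar
import Pool.Agent.Helper80.VR.Count

/-!
# VR-FI: the inequality for a tight frame

Proof. `hP` with `x = Pi.single k 1` summed over `k`: `∑ i, u i ⬝ᵥ u i = r`. `hP` with `x = u j`
summed over `j`: `∑ i j, (u i ⬝ᵥ u j)^2 = ∑ j, u j ⬝ᵥ u j = r`. `decomp` with
`F i j = (u i ⬝ᵥ u j)^2` and `planar` for each `P ∈ L`.
-/

namespace Pool.Agent.Helper80.VR

open Finset

theorem frame_ineq {ι : Type} [Fintype ι] [DecidableEq ι] {r : ℕ} (u : ι → Fin r → ℝ)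
    (hP : ∀ x : Fin r → ℝ, ∑ i, (u i ⬝ᵥ x) ^ 2 = x ⬝ᵥ x) (L : Finset (Finset ι)) (hL : Linear L)
    (h2 : ∀ P ∈ L, Module.finrank ℝ (Submodule.span ℝ (u '' (P : Set ι))) ≤ 2) :
    ∑ i, (u i ⬝ᵥ u i) ^ 2
      + ∑ P ∈ L, ((∑ i ∈ P, u i ⬝ᵥ u i) ^ 2 / 2 - ∑ i ∈ P, (u i ⬝ᵥ u i) ^ 2) ≤ r := by
  have e1 : ∀ k : Fin r, ∑ i, u i k ^ 2 = 1 := by
    intro k
    have h := hP (Pi.single k 1)
    simpa [dotProduct_single, single_dotProduct] using h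
  have e2 : ∑ i, u i ⬝ᵥ u i = r := by
    have h : ∀ i, u i ⬝ᵥ u i = ∑ k, u i k ^ 2 := fun i => by
      unfold dotProduct
      exact Finset.sum_congr rfl fun k _ => (sq (u i k)).symm
    rw [Finset.sum_congr rfl fun i _ => h i, Finset.sum_comm, Finset.sum_congr rfl fun k _ => e1 k]
    simp
  have e3 : ∑ i, ∑ j, (u i ⬝ᵥ u j) ^ 2 = r := by
    rw [Finset.sum_comm, Finset.sum_congr rfl fun j _ => hP (u j), e2]
  have e4 := decomp L hL (fun i j => (u i ⬝ᵥ u j) ^ 2)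
  rw [e3] at e4
  have e5 : ∑ P ∈ L, ((∑ i ∈ P, u i ⬝ᵥ u i) ^ 2 / 2 - ∑ i ∈ P, (u i ⬝ᵥ u i) ^ 2) ≤
      ∑ P ∈ L, (∑ i ∈ P, ∑ j ∈ P, (u i ⬝ᵥ u j) ^ 2 - ∑ i ∈ P, (u i ⬝ᵥ u i) ^ 2) :=
    Finset.sum_le_sum fun P hP' => sub_le_sub_right (planar u P (h2 P hP')) _
  linarith

end Pool.Agent.Helper80.VR
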