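import Pool.Agent.Helper80.VR.Layer

/-!
# VR-EB: a basis of large weight

Proof. `hU` for `U = span (range v)` gives `r * n ≤ n * finrank U`, so (n = card ι > 0) `U = ⊤` and
there is `f` with `G v f ≠ 0`. Among the finitely many `f : Fin r → ι` with `G v f ≠ 0` choose one
with `∑ k, t (f k)` maximal. Claim: for every `c` and every `j` with `c ≤ t j`,
`v j ∈ U_c := span {v (f k) | c ≤ t (f k)}`. Indeed `v j = ∑ k, a k • v (f k)` (the `v (f k)` are a
basis); if `a k ≠ 0` for some `k` with `t (f k) < c`, then `f' = Function.update f k j` has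
`G v f' = a k * G v f ≠ 0` (`Matrix.det_updateRow_sum` etc.) and a larger weight, contradiction.
So `hU U_c` gives `r * #{i | c ≤ t i} ≤ r * #{i | v i ∈ U_c} ≤ n * finrank U_c ≤ n * #{k | c ≤ t (f k)}`
(`finrank_span_finset_le_card` or `finrank_range_le_card`). Now `layer` with `ρ = r/n`.
-/

namespace Pool.Agent.Helper80.VR

open Finset

private lemma start65 {ι : Type} [Fintype ι] [Nonempty ι] {r : ℕ} (v : ι → Fin r → ℝ)
    (hU : ∀ U : Submodule ℝ (Fin r → ℝ), ∀ J : Finset ι, (∀ i ∈ J, v i ∈ U) →
      (r : ℝ) * #J ≤ (Fintype.card ι : ℝ) * Module.finrank ℝ U) : ∃ f : Fin r → ι, G v f ≠ 0 := by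
  have hn : (0 : ℝ) < Fintype.card ι := by exact_mod_cast Fintype.card_pos
  have h1 := hU (Submodule.span ℝ (Set.range v)) Finset.univ
    (fun i _ => Submodule.subset_span (Set.mem_range_self i))
  rw [Finset.card_univ, mul_comm] at h1
  have h2 : (r : ℝ) ≤ Module.finrank ℝ (Submodule.span ℝ (Set.range v)) := le_of_mul_le_mul_left h1 hn
  have h3 : r ≤ Module.finrank ℝ (Submodule.span ℝ (Set.range v)) := by exact_mod_cast h2
  have h4 : Module.finrank ℝ (Submodule.span ℝ (Set.range v)) ≤ r := by
    have := Submodule.finrank_le (Submodule.span ℝ (Set.range v))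
    rwa [Module.finrank_fin_fun] at this
  have h5 : Module.finrank ℝ (Submodule.span ℝ (Set.range v)) = r := le_antisymm h4 h3
  obtain ⟨g, hg1, hg2, hg3⟩ := Submodule.exists_fun_fin_finrank_span_eq ℝ (Set.range v)
  choose e he using hg1
  refine ⟨fun k => e (Fin.cast h5.symm k), ?_⟩
  unfold G
  have h6 : LinearIndependent ℝ (fun k : Fin r => g (Fin.cast h5.symm k)) :=
    hg3.comp _ (Fin.cast_injective h5.symm)
  have h7 : (fun k : Fin r => v (e (Fin.cast h5.symm k))) = fun k : Fin r => g (Fin.cast h5.symm k) := by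
    funext k
    exact he _
  rw [h7]
  have h8 := Matrix.linearIndependent_rows_iff_isUnit (A := Matrix.of fun k : Fin r => g (Fin.cast h5.symm k))
  have h9 : IsUnit (Matrix.of fun k : Fin r => g (Fin.cast h5.symm k)) := h8.1 h6
  exact ((Matrix.isUnit_iff_isUnit_det _).1 h9).ne_zero

theorem exists_basis_ge {ι : Type} [Fintype ι] [Nonempty ι] {r : ℕ} (v : ι → Fin r → ℝ)
    (hU : ∀ U : Submodule ℝ (Fin r → ℝ), ∀ J : Finset ι, (∀ i ∈ J, v i ∈ U) →
      (r : ℝ) * #J ≤ (Fintype.card ι : ℝ) * Module.finrank ℝ U)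
    (t : ι → ℝ) :
    ∃ f : Fin r → ι, G v f ≠ 0 ∧
      (r : ℝ) / Fintype.card ι * ∑ i, t i ≤ ∑ k, t (f k) := by
  classical
  have hn : (0 : ℝ) < Fintype.card ι := by exact_mod_cast Fintype.card_pos
  obtain ⟨f0, hf0⟩ := start65 v hU
  obtain ⟨f, hf, hmax⟩ := Finset.exists_max_image
    ((Finset.univ : Finset (Fin r → ι)).filter fun f => G v f ≠ 0) (fun f => ∑ k, t (f k))
    ⟨f0, by rw [Finset.mem_filter]; exact ⟨Finset.mem_univ _, hf0⟩⟩
  rw [Finset.mem_filter] at hf
  have hG := hf.2
  refine ⟨f, hG, ?_⟩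
  have hunit : IsUnit (Matrix.of fun k : Fin r => v (f k)) :=
    (Matrix.isUnit_iff_isUnit_det _).2 (isUnit_iff_ne_zero.2 hG)
  have hli : LinearIndependent ℝ (fun k : Fin r => v (f k)) :=
    Matrix.linearIndependent_rows_iff_isUnit.2 hunit
  have hcard : Fintype.card (Fin r) = Module.finrank ℝ (Fin r → ℝ) := by
    rw [Module.finrank_fin_fun, Fintype.card_fin]
  have hspan : Submodule.span ℝ (Set.range fun k : Fin r => v (f k)) = ⊤ :=
    hli.span_eq_top_of_card_eq_finrank' hcard
  have claim : ∀ c : ℝ, ∀ j : ι, c ≤ t j → v j ∈ Submodule.span ℝ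
      (((Finset.univ.filter fun k : Fin r => c ≤ t (f k)).image fun k => v (f k) : Finset (Fin r → ℝ)) :
        Set (Fin r → ℝ)) := by
    intro c j hj
    have h1 : v j ∈ Submodule.span ℝ (Set.range fun k : Fin r => v (f k)) := by
      rw [hspan]
      exact Submodule.mem_top
    obtain ⟨a, ha⟩ := (Submodule.mem_span_range_iff_exists_fun ℝ).1 h1
    have h2 : ∀ k, t (f k) < c → a k = 0 := by
      intro k hk
      by_contra hak
      have h3 : G v (Function.update f k j) = a k • G v f := by
        unfold G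
        rw [← Matrix.det_updateRow_sum]
        congr 1
        ext i l
        rw [Matrix.updateRow_apply]
        by_cases hik : i = k
        · rw [if_pos hik, hik]
          show v (Function.update f k j k) l = _
          rw [Function.update_self, ← ha]
          rfl
        · rw [if_neg hik]
          show v (Function.update f k j i) l = v (f i) l
          rw [Function.update_of_ne hik]
      have h4 := hmax (Function.update f k j) (by
        rw [Finset.mem_filter]
        refine ⟨Finset.mem_univ _, ?_⟩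
        rw [h3, smul_eq_mul]
        exact mul_ne_zero hak hG)
      have h5 : ∑ i, t (Function.update f k j i) = ∑ i, t (f i) + (t j - t (f k)) := by
        rw [← Finset.add_sum_erase _ _ (Finset.mem_univ k), ← Finset.add_sum_erase Finset.univ _ (Finset.mem_univ k),
          Function.update_self]
        have h6 : ∑ i ∈ Finset.univ.erase k, t (Function.update f k j i) = ∑ i ∈ Finset.univ.erase k, t (f i) :=
          Finset.sum_congr rfl fun i hi => by rw [Function.update_of_ne (Finset.ne_of_mem_erase hi)]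
        rw [h6]
        ring
      rw [h5] at h4
      linarith
    rw [← ha]
    refine Submodule.sum_mem _ fun k _ => ?_
    by_cases hk : c ≤ t (f k)
    · refine Submodule.smul_mem _ _ (Submodule.subset_span ?_)
      rw [Finset.mem_coe, Finset.mem_image]
      exact ⟨k, by rw [Finset.mem_filter]; exact ⟨Finset.mem_univ _, hk⟩, rfl⟩
    · rw [h2 k (not_le.1 hk), zero_smul]
      exact Submodule.zero_mem _
  refine layer t f _ (fun c => ?_) (by
    rw [Fintype.card_fin]
    field_simp)
  have h1 := hU _ (Finset.univ.filter fun i => c ≤ t i) (fun i hi => by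
    rw [Finset.mem_filter] at hi
    exact claim c i hi.2)
  have h2 := finrank_span_finset_le_card (R := ℝ)
    ((Finset.univ.filter fun k : Fin r => c ≤ t (f k)).image fun k => v (f k))
  have h3 : (((Finset.univ.filter fun k : Fin r => c ≤ t (f k)).image fun k => v (f k)).card : ℝ) ≤
      ((Finset.univ.filter fun k : Fin r => c ≤ t (f k)).card : ℝ) := by exact_mod_cast Finset.card_image_le
  have h4 : (Module.finrank ℝ (Submodule.span ℝ
      (((Finset.univ.filter fun k : Fin r => c ≤ t (f k)).image fun k => v (f k) : Finset (Fin r → ℝ)) :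
        Set (Fin r → ℝ))) : ℝ) ≤ ((Finset.univ.filter fun k : Fin r => c ≤ t (f k)).card : ℝ) := by
    refine le_trans ?_ h3
    exact_mod_cast h2
  have h5 := h1.trans (mul_le_mul_of_nonneg_left h4 hn.le)
  rw [div_mul_eq_mul_div, div_le_iff₀ hn]
  linarith

end Pool.Agent.Helper80.VR
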