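import Pool.Agent.Helper80.VR.Defs

/-!
# VR-IS: from a positive definite moment matrix to a tight frame

Proof. `M = M v t` is positive definite, so `M = Bᵀ * B` with `B` invertible (e.g.
`Matrix.PosSemidef` / `Matrix.PosDef` factorisation lemmas such as
`Matrix.posSemidef_iff_eq_conjTranspose_mul_self`, then `det B ≠ 0`, or the square root, or Cholesky/LDL).
Let `A x = (Bᵀ)⁻¹ *ᵥ x` (a linear equivalence) and `c i = exp (t i / 2)`, `u i = c i • A (v i)`. Then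
`∑ i, (u i ⬝ᵥ x)^2 = xᵀ (Bᵀ)⁻¹ M B⁻¹ x = x ⬝ᵥ x` and
`u i ⬝ᵥ u i = exp (t i) * (v i ⬝ᵥ B⁻¹ (Bᵀ)⁻¹ v i) = exp (t i) * (v i ⬝ᵥ M⁻¹ *ᵥ v i)`.
-/

namespace Pool.Agent.Helper80.VR

open Finset

open Matrix in
private theorem quad_M_h99 {ι : Type} [Fintype ι] {r : ℕ} (v : ι → Fin r → ℝ) (t : ι → ℝ)
    (y : Fin r → ℝ) : y ⬝ᵥ (M v t).mulVec y = ∑ i, Real.exp (t i) * (v i ⬝ᵥ y) ^ 2 := by
  unfold M
  rw [Matrix.sum_mulVec, dotProduct_sum]
  refine Finset.sum_congr rfl fun i _ => ?_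
  rw [Matrix.smul_mulVec, dotProduct_smul, Matrix.vecMulVec_mulVec, smul_eq_mul]
  rw [show MulOpposite.op (v i ⬝ᵥ y) • v i = (v i ⬝ᵥ y) • v i from op_smul_eq_smul _ _,
    dotProduct_smul, smul_eq_mul, dotProduct_comm y (v i)]
  ring

open Matrix MatrixOrder in
private theorem exists_root_h99 {r : ℕ} {A : Matrix (Fin r) (Fin r) ℝ} (hA : A.PosSemidef) :
    ∃ B : Matrix (Fin r) (Fin r) ℝ, A = Bᴴ * B := by
  obtain ⟨B, hB⟩ := CStarAlgebra.nonneg_iff_eq_star_mul_self.mp hA.nonneg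
  exact ⟨B, hB⟩

open Matrix in
theorem exists_frame {ι : Type} [Fintype ι] {r : ℕ} (v : ι → Fin r → ℝ) (t : ι → ℝ)
    (hM : (M v t).PosDef) :
    ∃ (A : (Fin r → ℝ) ≃ₗ[ℝ] (Fin r → ℝ)) (c : ι → ℝ), (∀ i, c i ≠ 0) ∧
      (∀ x : Fin r → ℝ, ∑ i, ((c i • A (v i)) ⬝ᵥ x) ^ 2 = x ⬝ᵥ x) ∧
      ∀ i, (c i • A (v i)) ⬝ᵥ (c i • A (v i))
        = Real.exp (t i) * (v i ⬝ᵥ (M v t)⁻¹.mulVec (v i)) := by
  obtain ⟨B, hB⟩ := exists_root_h99 hM.posSemidef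
  rw [Matrix.conjTranspose_eq_transpose_of_trivial] at hB
  have hdet : B.det ≠ 0 := by
    intro h0
    have h1 := hM.det_pos
    rw [hB, Matrix.det_mul, h0, mul_zero] at h1
    exact lt_irrefl _ h1
  have hu : IsUnit B.det := isUnit_iff_ne_zero.2 hdet
  have huT : IsUnit (Bᵀ).det := by rwa [Matrix.det_transpose]
  have hPu : IsUnit ((Bᵀ)⁻¹).det := by
    rw [Matrix.isUnit_nonsing_inv_det_iff]
    exact huT
  have hc : ∀ i : ι, Real.exp (t i / 2) * Real.exp (t i / 2) = Real.exp (t i) := by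
    intro i
    rw [← Real.exp_add]
    congr 1
    ring
  have hPT : ((Bᵀ)⁻¹)ᵀ = B⁻¹ := by
    rw [Matrix.transpose_nonsing_inv, Matrix.transpose_transpose]
  refine ⟨Matrix.toLinearEquiv' ((Bᵀ)⁻¹) (Matrix.invertibleOfIsUnitDet _ hPu),
    fun i => Real.exp (t i / 2), fun i => (Real.exp_pos _).ne', ?_, ?_⟩
  · intro x
    have h1 : ∀ i : ι, ((Real.exp (t i / 2) • (Matrix.toLinearEquiv' ((Bᵀ)⁻¹)
        (Matrix.invertibleOfIsUnitDet _ hPu)) (v i)) ⬝ᵥ x) ^ 2 =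
        Real.exp (t i) * (v i ⬝ᵥ (B⁻¹).mulVec x) ^ 2 := by
      intro i
      rw [smul_dotProduct, smul_eq_mul, mul_pow, pow_two (Real.exp (t i / 2)), hc i]
      congr 2
      change ((Bᵀ)⁻¹).mulVec (v i) ⬝ᵥ x = _
      rw [dotProduct_comm, Matrix.dotProduct_mulVec, ← Matrix.mulVec_transpose, hPT,
        dotProduct_comm]
    rw [Finset.sum_congr rfl fun i _ => h1 i, ← quad_M_h99, hB, ← Matrix.mulVec_mulVec,
      Matrix.dotProduct_mulVec, ← Matrix.mulVec_transpose, Matrix.transpose_transpose,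
      Matrix.mulVec_mulVec, Matrix.mul_nonsing_inv _ hu, Matrix.one_mulVec]
  · intro i
    have h2 : (M v t)⁻¹ = B⁻¹ * (Bᵀ)⁻¹ := by
      rw [hB, Matrix.mul_inv_rev]
    rw [smul_dotProduct, dotProduct_smul, smul_eq_mul, smul_eq_mul, ← mul_assoc, hc i, h2]
    congr 1
    change ((Bᵀ)⁻¹).mulVec (v i) ⬝ᵥ ((Bᵀ)⁻¹).mulVec (v i) = _
    rw [Matrix.dotProduct_mulVec, ← Matrix.mulVec_transpose, hPT, Matrix.mulVec_mulVec,
      dotProduct_comm]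

end Pool.Agent.Helper80.VR
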