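import Pool.Agent.Helper80.VR.Defs

/-!
# VR-LC: layer cake inequality

Proof. Choose `m ≤ M` with `m ≤ t i ≤ M` for all `i` (finite type). For every `i`,
`t i - m = ∫ c in m..M, if c ≤ t i then 1 else 0`, so
`∑ i, (t i - m) = ∫ c in m..M, #{i | c ≤ t i}` and
`∑ k, (t (f k) - m) = ∫ c in m..M, #{k | c ≤ t (f k)}`. By `h`,
`ρ * ∑ i, (t i - m) ≤ ∑ k, (t (f k) - m)`, and by `heq` the terms with `m` cancel.
(Alternative without integrals: induction on the number of values of `t`, lowering all the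
maximal values to the second largest one: if the maximal value is `a`, the second largest `b`,
then both sides change by `(a - b)` times the two sides of `h a`.)
-/

namespace Pool.Agent.Helper80.VR

open Finset

private lemma anti46 (t : ℝ) : Antitone (fun c : ℝ => if c ≤ t then (1:ℝ) else 0) := by
  intro x y hxy
  by_cases hy : y ≤ t
  · have hx : x ≤ t := hxy.trans hy
    simp [hx, hy]
  · simp only [hy, if_false]
    split_ifs <;> norm_num

private lemma int_step46 (m M t : ℝ) (h1 : m ≤ t) :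
    ∫ c in m..M, (if c ≤ t then (1:ℝ) else 0) =
      (t - m) + ∫ c in t..M, (if c ≤ t then (1:ℝ) else 0) := by
  rw [← intervalIntegral.integral_add_adjacent_intervals
    ((anti46 t).intervalIntegrable (a := m) (b := t))
    ((anti46 t).intervalIntegrable (a := t) (b := M))]
  congr 1
  have e1 : ∫ c in m..t, (if c ≤ t then (1:ℝ) else 0) = ∫ _c in m..t, (1:ℝ) := by
    apply intervalIntegral.integral_congr
    intro c hc
    rw [Set.uIcc_of_le h1] at hc
    simp [hc.2]
  rw [e1]
  simp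

private lemma int_zero46 (M t : ℝ) (h2 : t ≤ M) :
    ∫ c in t..M, (if c ≤ t then (1:ℝ) else 0) = 0 := by
  apply intervalIntegral.integral_zero_ae
  refine Filter.Eventually.of_forall ?_
  intro c hc
  rw [Set.uIoc_of_le h2] at hc
  simp [not_le.mpr hc.1]

private lemma sum46 {α : Type} [Fintype α] (s : α → ℝ) (m M : ℝ)
    (h1 : ∀ i, m ≤ s i) (h2 : ∀ i, s i ≤ M) :
    ∑ i, s i - m * Fintype.card α = ∫ c in m..M, ((#{i | c ≤ s i} : ℕ) : ℝ) := by
  have e : ∀ c : ℝ, ((#{i | c ≤ s i} : ℕ) : ℝ) = ∑ i, (if c ≤ s i then (1:ℝ) else 0) := by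
    intro c
    rw [Finset.sum_boole]
  simp_rw [e]
  rw [intervalIntegral.integral_finsetSum]
  · have : ∀ i ∈ (univ : Finset α), ∫ c in m..M, (if c ≤ s i then (1:ℝ) else 0) = s i - m := by
      intro i _
      rw [int_step46 m M (s i) (h1 i), int_zero46 M (s i) (h2 i), add_zero]
    rw [Finset.sum_congr rfl this, Finset.sum_sub_distrib]
    simp [mul_comm]
  · intro i _
    exact (anti46 (s i)).intervalIntegrable

private lemma integ46 {α : Type} [Fintype α] (s : α → ℝ) (m M : ℝ) :
    IntervalIntegrable (fun c : ℝ => ((#{i | c ≤ s i} : ℕ) : ℝ)) MeasureTheory.volume m M := by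
  apply Antitone.intervalIntegrable
  intro x y hxy
  have : (#{i | y ≤ s i} : ℕ) ≤ #{i | x ≤ s i} := by
    apply Finset.card_le_card
    intro i hi
    simp only [Finset.mem_filter, Finset.mem_univ, true_and] at hi ⊢
    exact hxy.trans hi
  show ((#{i | y ≤ s i} : ℕ) : ℝ) ≤ ((#{i | x ≤ s i} : ℕ) : ℝ)
  exact_mod_cast this

theorem layer {ι κ : Type} [Fintype ι] [Fintype κ] (t : ι → ℝ) (f : κ → ι) (ρ : ℝ)
    (h : ∀ c : ℝ, ρ * #{i | c ≤ t i} ≤ #{k | c ≤ t (f k)})
    (heq : ρ * Fintype.card ι = Fintype.card κ) :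
    ρ * ∑ i, t i ≤ ∑ k, t (f k) := by
  rcases isEmpty_or_nonempty ι with hι | hι
  · have : IsEmpty κ := ⟨fun k => hι.elim (f k)⟩
    simp
  obtain ⟨m, hm⟩ := (Set.finite_range t).bddBelow
  obtain ⟨M, hM⟩ := (Set.finite_range t).bddAbove
  have h1 : ∀ i, m ≤ t i := fun i => hm ⟨i, rfl⟩
  have h2 : ∀ i, t i ≤ M := fun i => hM ⟨i, rfl⟩
  have hmM : m ≤ M := (h1 (Classical.arbitrary ι)).trans (h2 _)
  have e1 := sum46 t m M h1 h2
  have e2 := sum46 (fun k => t (f k)) m M (fun k => h1 _) (fun k => h2 _)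
  have key : ρ * ∫ c in m..M, ((#{i | c ≤ t i} : ℕ) : ℝ) ≤
      ∫ c in m..M, ((#{k | c ≤ t (f k)} : ℕ) : ℝ) := by
    rw [← intervalIntegral.integral_const_mul]
    apply intervalIntegral.integral_mono_on hmM
    · exact (integ46 t m M).const_mul ρ
    · exact integ46 (fun k => t (f k)) m M
    · intro c _
      exact h c
  rw [← e1, ← e2] at key
  have : m * (ρ * Fintype.card ι) = m * Fintype.card κ := by rw [heq]
  nlinarith

end Pool.Agent.Helper80.VR
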