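import Pool.Agent.Helper80.VR.Defs

/-!
# VR-LI: passage to the limit

Proof. The function `k ↦ ∑ i, k i ^ 2 + ∑ P ∈ L, ((∑ i ∈ P, k i) ^ 2 / 2 - ∑ i ∈ P, k i ^ 2)` on
`ι → ℝ` is continuous; take `ε = 1/(m+1)`, the corresponding `k m` tend to the constant function `ρ`,
and use `le_of_tendsto'`.
-/

namespace Pool.Agent.Helper80.VR

open Finset

theorem limit_ineq {ι : Type} [Fintype ι] (L : Finset (Finset ι)) (r ρ : ℝ)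
    (h : ∀ ε : ℝ, 0 < ε → ∃ k : ι → ℝ, (∀ i, |k i - ρ| ≤ ε) ∧
      ∑ i, k i ^ 2 + ∑ P ∈ L, ((∑ i ∈ P, k i) ^ 2 / 2 - ∑ i ∈ P, k i ^ 2) ≤ r) :
    (Fintype.card ι : ℝ) * ρ ^ 2 + ∑ P ∈ L, ((#P * ρ) ^ 2 / 2 - #P * ρ ^ 2) ≤ r := by
  classical
  have hk : ∀ m : ℕ, ∃ k : ι → ℝ, (∀ i, |k i - ρ| ≤ 1 / ((m : ℝ) + 1)) ∧
      ∑ i, k i ^ 2 + ∑ P ∈ L, ((∑ i ∈ P, k i) ^ 2 / 2 - ∑ i ∈ P, k i ^ 2) ≤ r := fun m =>
    h (1 / ((m : ℝ) + 1)) (by positivity)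
  choose k hk1 hk2 using hk
  have hlim : Filter.Tendsto k Filter.atTop (nhds (fun _ : ι => ρ)) := by
    rw [tendsto_pi_nhds]
    intro i
    rw [tendsto_iff_dist_tendsto_zero]
    refine squeeze_zero (fun _ => dist_nonneg) (fun m => ?_)
      (tendsto_one_div_add_atTop_nhds_zero_nat (𝕜 := ℝ))
    rw [Real.dist_eq]
    exact hk1 m i
  have hcont : Continuous (fun k : ι → ℝ =>
      ∑ i, k i ^ 2 + ∑ P ∈ L, ((∑ i ∈ P, k i) ^ 2 / 2 - ∑ i ∈ P, k i ^ 2)) := by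
    fun_prop
  have h1 := (hcont.tendsto (fun _ : ι => ρ)).comp hlim
  have h2 := le_of_tendsto' h1 hk2
  refine le_trans (le_of_eq ?_) h2
  simp only [Finset.sum_const, Finset.card_univ, nsmul_eq_mul]

end Pool.Agent.Helper80.VR
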