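import Pool.Agent.Helper80.VR.Defs

/-!
# VR-LS: the lines of a family of pairwise independent vectors

`linear_lines`: `line v i j` contains `i` and `j`. If `i ≠ j` both lie in `line v a b`, `a ≠ b`, then
`v i, v j ∈ span {v a, v b}`, and `v i, v j` are independent while the span has dimension `2`,
so `span {v i, v j} = span {v a, v b}` and `line v i j = line v a b`: uniqueness.
`finrank_line`: for `P = line v a b` and `u i = c i • A (v i)` all `u i`, `i ∈ P`, lie in
`span {A (v a), A (v b)}`, of dimension `≤ 2`.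
`exists_reps`: for fixed `i` choose from every `P ∈ lines v` with `i ∈ P` an index `j ∈ P`, `j ≠ i`
(every line has at least two elements); let `R` be the set of these `j`. Different `P` give
different `j` (by `linear_lines`), so `R.card = #{P ∈ lines v | i ∈ P}`, and for `j ≠ k` in `R`
the vectors `v i, v j, v k` are linearly independent (otherwise `v k ∈ span {v i, v j}` as `v i, v j` are
independent, so `k ∈ line v i j`, and `i, k` lie both in this line and in the line chosen for `k`).
-/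

namespace Pool.Agent.Helper80.VR

open Finset

private theorem range_pair_h5 {V : Type*} (x y : V) : Set.range ![x, y] = {x, y} := by
  rw [Matrix.range_cons, Matrix.range_cons, Matrix.range_empty, Set.union_empty]
  rfl

private theorem finrank_pair_le_h5 {V : Type*} [AddCommGroup V] [Module ℝ V] (x y : V) :
    Module.finrank ℝ (Submodule.span ℝ ({x, y} : Set V)) ≤ 2 := by
  classical
  have h := finrank_span_finset_le_card (R := ℝ) ({x, y} : Finset V)
  have h2 : (({x, y} : Finset V) : Set V) = {x, y} := by simp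
  rw [h2] at h
  exact h.trans Finset.card_le_two

private theorem span_eq_h5 {r : ℕ} {x y a b : Fin r → ℝ} (h : LinearIndependent ℝ ![x, y])
    (hx : x ∈ Submodule.span ℝ ({a, b} : Set (Fin r → ℝ)))
    (hy : y ∈ Submodule.span ℝ ({a, b} : Set (Fin r → ℝ))) :
    Submodule.span ℝ ({x, y} : Set (Fin r → ℝ)) = Submodule.span ℝ {a, b} := by
  apply Submodule.eq_of_le_of_finrank_le
  · rw [Submodule.span_le]
    intro z hz
    rcases hz with rfl | hz
    · exact hx
    · rw [Set.mem_singleton_iff] at hz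
      subst hz
      exact hy
  · have h1 := finrank_span_eq_card h
    rw [range_pair_h5, Fintype.card_fin] at h1
    rw [h1]
    exact finrank_pair_le_h5 a b

private theorem mem_line_h5 {ι : Type} [Fintype ι] {r : ℕ} (v : ι → Fin r → ℝ) (i j k : ι) :
    k ∈ line v i j ↔ v k ∈ Submodule.span ℝ {v i, v j} := by
  simp [line]

private theorem mem_lines_h5 {ι : Type} [Fintype ι] {r : ℕ} (v : ι → Fin r → ℝ)
    (P : Finset ι) : P ∈ lines v ↔ ∃ a b : ι, a ≠ b ∧ line v a b = P := by
  simp [lines]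

private theorem left_mem_h5 {ι : Type} [Fintype ι] {r : ℕ} (v : ι → Fin r → ℝ) (i j : ι) :
    i ∈ line v i j := by
  rw [mem_line_h5]
  exact Submodule.subset_span (by simp)

private theorem right_mem_h5 {ι : Type} [Fintype ι] {r : ℕ} (v : ι → Fin r → ℝ) (i j : ι) :
    j ∈ line v i j := by
  rw [mem_line_h5]
  exact Submodule.subset_span (by simp)

private theorem line_eq_h5 {ι : Type} [Fintype ι] {r : ℕ} (v : ι → Fin r → ℝ)
    (hp : ∀ i j, i ≠ j → LinearIndependent ℝ ![v i, v j]) {i j : ι} (hij : i ≠ j)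
    {P : Finset ι} (hP : P ∈ lines v) (hi : i ∈ P) (hj : j ∈ P) : P = line v i j := by
  rw [mem_lines_h5] at hP
  obtain ⟨a, b, -, rfl⟩ := hP
  rw [mem_line_h5] at hi hj
  ext k
  rw [mem_line_h5, mem_line_h5, span_eq_h5 (hp i j hij) hi hj]

theorem linear_lines {ι : Type} [Fintype ι] {r : ℕ} (v : ι → Fin r → ℝ)
    (hp : ∀ i j, i ≠ j → LinearIndependent ℝ ![v i, v j]) : Linear (lines v) := by
  intro i j hij
  refine ⟨line v i j, ⟨?_, left_mem_h5 v i j, right_mem_h5 v i j⟩, ?_⟩
  · rw [mem_lines_h5]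
    exact ⟨i, j, hij, rfl⟩
  · rintro P ⟨hP, hi, hj⟩
    exact line_eq_h5 v hp hij hP hi hj

theorem finrank_line {ι : Type} [Fintype ι] {r : ℕ} (v : ι → Fin r → ℝ)
    (A : (Fin r → ℝ) ≃ₗ[ℝ] (Fin r → ℝ)) (c : ι → ℝ) :
    ∀ P ∈ lines v,
      Module.finrank ℝ (Submodule.span ℝ ((fun i => c i • A (v i)) '' (P : Set ι))) ≤ 2 := by
  intro P hP
  rw [mem_lines_h5] at hP
  obtain ⟨a, b, -, rfl⟩ := hP
  refine le_trans (Submodule.finrank_mono (t := Submodule.span ℝ {A (v a), A (v b)}) ?_)
    (finrank_pair_le_h5 _ _)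
  rw [Submodule.span_le]
  rintro _ ⟨k, hk, rfl⟩
  have hk' : v k ∈ Submodule.span ℝ {v a, v b} := by
    rw [← mem_line_h5]
    exact hk
  apply Submodule.smul_mem
  have h := Submodule.mem_map_of_mem (f := (A : (Fin r → ℝ) →ₗ[ℝ] (Fin r → ℝ))) hk'
  rw [Submodule.map_span, Set.image_pair] at h
  exact h

theorem exists_reps {ι : Type} [Fintype ι] [DecidableEq ι] {r : ℕ} (v : ι → Fin r → ℝ)
    (hp : ∀ i j, i ≠ j → LinearIndependent ℝ ![v i, v j]) (i : ι) :
    ∃ R : Finset ι, i ∉ R ∧ #R = #{P ∈ lines v | i ∈ P} ∧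
      ∀ j ∈ R, ∀ k ∈ R, j ≠ k → LinearIndependent ℝ ![v i, v j, v k] := by
  classical
  have hch : ∀ P : Finset ι, ∃ j : ι, P ∈ lines v → i ∈ P → j ∈ P ∧ j ≠ i := by
    intro P
    by_cases hP : P ∈ lines v
    · have hP' := hP
      rw [mem_lines_h5] at hP'
      obtain ⟨a, b, hab, rfl⟩ := hP'
      by_cases hia : a = i
      · refine ⟨b, fun _ _ => ⟨right_mem_h5 v a b, ?_⟩⟩
        intro hb
        exact hab (hia.trans hb.symm)
      · exact ⟨a, fun _ _ => ⟨left_mem_h5 v a b, hia⟩⟩
    · exact ⟨i, fun h => absurd h hP⟩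
  choose f hf using hch
  refine ⟨({P ∈ lines v | i ∈ P}).image f, ?_, ?_, ?_⟩
  · intro h
    rw [mem_image] at h
    obtain ⟨P, hP, hPi⟩ := h
    rw [mem_filter] at hP
    exact (hf P hP.1 hP.2).2 hPi
  · apply card_image_of_injOn
    intro P hP Q hQ hPQ
    rw [mem_coe, mem_filter] at hP hQ
    have h1 := hf P hP.1 hP.2
    have h2 := hf Q hQ.1 hQ.2
    have h3 : f P = f Q := hPQ
    rw [← h3] at h2
    exact (line_eq_h5 v hp h1.2.symm hP.1 hP.2 h1.1).trans
      (line_eq_h5 v hp h1.2.symm hQ.1 hQ.2 h2.1).symm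
  · intro j hj k hk hjk
    rw [mem_image] at hj hk
    obtain ⟨P, hP, rfl⟩ := hj
    obtain ⟨Q, hQ, rfl⟩ := hk
    rw [mem_filter] at hP hQ
    have h1 := hf P hP.1 hP.2
    have h2 := hf Q hQ.1 hQ.2
    have hcons : LinearIndependent ℝ (Fin.cons (v i) ![v (f P), v (f Q)] : Fin 3 → Fin r → ℝ) := by
      rw [linearIndependent_finCons]
      refine ⟨hp _ _ hjk, ?_⟩
      intro hmem
      rw [range_pair_h5] at hmem
      have h3 : Submodule.span ℝ ({v i, v (f P)} : Set (Fin r → ℝ)) =
          Submodule.span ℝ {v (f P), v (f Q)} :=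
        span_eq_h5 (hp _ _ h1.2.symm) hmem (Submodule.subset_span (by simp))
      have h4 : v (f Q) ∈ Submodule.span ℝ ({v i, v (f P)} : Set (Fin r → ℝ)) := by
        rw [h3]
        exact Submodule.subset_span (by simp)
      have h5 : P = line v i (f P) := line_eq_h5 v hp h1.2.symm hP.1 hP.2 h1.1
      have h6 : f Q ∈ P := by
        rw [h5, mem_line_h5]
        exact h4
      have h7 : P = Q := (line_eq_h5 v hp h2.2.symm hP.1 hP.2 h6).trans
        (line_eq_h5 v hp h2.2.symm hQ.1 hQ.2 h2.1).symm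
      exact hjk (by rw [h7])
    exact hcons

end Pool.Agent.Helper80.VR
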