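import Pool.Agent.Helper80.VR.Defs

/-!
# VR-P: rank two, at most 4 D pairwise independent vectors

Proof. Let `w x y = x 0 * y 1 - x 1 * y 0` (so `G v ![i, j] = w (v i) (v j)`,
`Matrix.det_fin_two`). `G v ![i,j] ≠ 0` for `i ≠ j` (independence). Choose `a, b` with
`|w (v a) (v b)| = m` maximal over all pairs; `m > 0`, and by `Ratio` (apply it to `![a,b]`, `![i,j]`)
`m ≤ D * |w (v i) (v j)|` for all `i ≠ j`. Write `v i = x i • v a + y i • v b` with
`x i = w (v i) (v b) / w (v a) (v b)`, `y i = w (v a) (v i) / w (v a) (v b)`; then `|x i|, |y i| ≤ 1`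
and `w (v i) (v j) = (x i * y j - x j * y i) * w (v a) (v b)`, so `|x i * y j - x j * y i| ≥ 1/D`
for `i ≠ j`, and `|y i| ≥ 1/D` for `i ≠ a` (take `j = a`, `x a = 1, y a = 0`).
Changing the sign of `(x i, y i)` we may assume `y i > 0` for `i ≠ a`. Define for `0 < y ≤ 1`, `|x| ≤ 1`
`τ = y/x` if `x ≥ y`;  `τ = 2 - x/y` if `|x| ≤ y`;  `τ = 4 + y/x` if `x ≤ -y`.
(the formulas agree for `x = ±y`). Then `y ≤ τ ≤ 4 - y`, and for two such points
`|x * y' - x' * y| ≤ |τ - τ'|`: both of type 1 or both of type 3: `|x y' - x' y| = |x x'| |y'/x' - y/x|`;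
both of type 2: `= |y y'| |x/y - x'/y'|`; type 1 and type 2, with `s = y/x ∈ [0,1]`, `s' = x'/y' ∈ [-1,1]`:
`|x y' - x' y| = |x y'| (1 - s s') ≤ 1 - s s' ≤ (1 - s) + (1 - s') = τ' - τ`; type 2 and 3: symmetric;
type 1 and 3, with `s = y/x`, `s' = -y'/x' ∈ [0,1]`: `x y' - x' y = |x x'| (s' + s) ≤ 2 ≤ 4 - s' - s = τ' - τ`.
Hence `i ↦ ⌊D * τ i⌋ - 1` (a natural number, as `D τ i ≥ 1`) is injective on `i ≠ a`, and its values are
`< 4 D - 1`... precisely: `1 ≤ D τ i ≤ 4 D - 1`, so the values of `⌊D τ i⌋` lie in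
`[1, ⌊4 D - 1⌋]` and their number is at most `4 D - 1`. Together with `a`: `card ι ≤ 4 D`.
-/

namespace Pool.Agent.Helper80.VR

open Finset

private noncomputable def w38 (x y : Fin 2 → ℝ) : ℝ := x 0 * y 1 - x 1 * y 0

private theorem G38 {ι : Type} (v : ι → Fin 2 → ℝ) (i j : ι) : G v ![i, j] = w38 (v i) (v j) := by
  unfold G w38
  rw [Matrix.det_fin_two]
  simp

private theorem w_ne38 {x y : Fin 2 → ℝ} (h : LinearIndependent ℝ ![x, y]) : w38 x y ≠ 0 := by
  intro h0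
  unfold w38 at h0
  rw [LinearIndependent.pair_iff] at h
  have h1 := h (y 1) (-x 1) (by
    funext k
    fin_cases k
    · simp only [Fin.zero_eta, Pi.add_apply, Pi.smul_apply, smul_eq_mul, Pi.zero_apply]
      linarith
    · simp only [Fin.mk_one, Pi.add_apply, Pi.smul_apply, smul_eq_mul, Pi.zero_apply]
      ring)
  have h2 := h (y 0) (-x 0) (by
    funext k
    fin_cases k
    · simp only [Fin.zero_eta, Pi.add_apply, Pi.smul_apply, smul_eq_mul, Pi.zero_apply]
      ring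
    · simp only [Fin.mk_one, Pi.add_apply, Pi.smul_apply, smul_eq_mul, Pi.zero_apply]
      linarith)
  have h3 := h 1 0 (by
    funext k
    fin_cases k
    · simp only [Fin.zero_eta, Pi.add_apply, Pi.smul_apply, smul_eq_mul, Pi.zero_apply]
      linarith [h2.2]
    · simp only [Fin.mk_one, Pi.add_apply, Pi.smul_apply, smul_eq_mul, Pi.zero_apply]
      linarith [h1.2])
  exact one_ne_zero h3.1

private noncomputable def tau38 (x y : ℝ) : ℝ :=
  if y ≤ x then y / x else if -y ≤ x then 2 - x / y else 4 + y / x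

private theorem tau_bd38 {x y : ℝ} (hy : 0 < y) (hx : |x| ≤ 1) : y ≤ tau38 x y ∧ tau38 x y ≤ 4 - y ∨ 1 < y := by
  rcases lt_or_ge 1 y with h1 | h1
  · exact Or.inr h1
  left
  obtain ⟨hx1, hx2⟩ := abs_le.1 hx
  unfold tau38
  split_ifs with h2 h3
  · have hx0 : 0 < x := by linarith
    constructor
    · rw [le_div_iff₀ hx0]
      nlinarith
    · rw [div_le_iff₀ hx0]
      nlinarith
  · have h4 : x / y ≤ 1 := by
      rw [div_le_one hy]
      linarith
    have h5 : -1 ≤ x / y := by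
      rw [le_div_iff₀ hy]
      linarith
    constructor <;> linarith
  · have hx0 : x < 0 := by linarith
    have h4 : y / x ≤ -y := by
      rw [div_le_iff_of_neg hx0]
      nlinarith
    have h5 : -1 ≤ y / x := by
      rw [le_div_iff_of_neg hx0]
      linarith
    constructor <;> linarith

private theorem t11_38 {x y x' y' : ℝ} (hx : 0 < x) (hx1 : x ≤ 1) (hx' : 0 < x') (hx1' : x' ≤ 1) :
    |x * y' - x' * y| ≤ |y / x - y' / x'| := by
  have e : x * y' - x' * y = (x * x') * (y' / x' - y / x) := by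
    field_simp
  rw [e, abs_mul, abs_sub_comm (y / x), abs_of_pos (mul_pos hx hx')]
  have h1 : x * x' ≤ 1 := mul_le_one₀ hx1 hx'.le hx1'
  exact mul_le_of_le_one_left (abs_nonneg _) h1

private theorem t22_38 {x y x' y' : ℝ} (hy : 0 < y) (hy1 : y ≤ 1) (hy' : 0 < y') (hy1' : y' ≤ 1) :
    |x * y' - x' * y| ≤ |(2 - x / y) - (2 - x' / y')| := by
  have e : x * y' - x' * y = (y * y') * -((2 - x / y) - (2 - x' / y')) := by
    field_simp
    ring
  rw [e, abs_mul, abs_neg, abs_of_pos (mul_pos hy hy')]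
  have h1 : y * y' ≤ 1 := mul_le_one₀ hy1 hy'.le hy1'
  exact mul_le_of_le_one_left (abs_nonneg _) h1

private theorem t12_38 {x y x' y' : ℝ} (hy : 0 < y) (hyx : y ≤ x) (hx1 : x ≤ 1) (hy' : 0 < y') (hy1' : y' ≤ 1)
    (h1 : x' ≤ y') (h2 : -y' ≤ x') : |x * y' - x' * y| ≤ |y / x - (2 - x' / y')| := by
  have hx : 0 < x := by linarith
  have s1 : y / x ≤ 1 := by rw [div_le_one hx]; exact hyx
  have s0 : 0 < y / x := div_pos hy hx
  have s2 : x' / y' ≤ 1 := by rw [div_le_one hy']; exact h1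
  have s3 : -1 ≤ x' / y' := by rw [le_div_iff₀ hy']; linarith
  have e : x * y' - x' * y = (x * y') * (1 - (y / x) * (x' / y')) := by
    field_simp
  have h3 : 0 ≤ 1 - (y / x) * (x' / y') := by nlinarith
  have h4 : x * y' ≤ 1 := mul_le_one₀ hx1 hy'.le hy1'
  have h5 : 0 < x * y' := mul_pos hx hy'
  rw [e, abs_of_nonneg (mul_nonneg h5.le h3), abs_sub_comm, abs_of_nonneg (by linarith)]
  have h6 : x * y' * (1 - y / x * (x' / y')) ≤ 1 - y / x * (x' / y') := mul_le_of_le_one_left h3 h4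
  nlinarith [mul_nonneg (sub_nonneg.2 s1) (sub_nonneg.2 s2)]

private theorem t23_38 {x y x' y' : ℝ} (hy : 0 < y) (hy1 : y ≤ 1) (h1 : x ≤ y) (h2 : -y ≤ x)
    (hy' : 0 < y') (hyx' : x' ≤ -y') (hx1' : -1 ≤ x') : |x * y' - x' * y| ≤ |(2 - x / y) - (4 + y' / x')| := by
  have hx' : x' < 0 := by linarith
  have s1 : -1 ≤ y' / x' := by
    rw [le_div_iff_of_neg hx']
    linarith
  have s0 : y' / x' < 0 := div_neg_of_pos_of_neg hy' hx'
  have s2 : x / y ≤ 1 := by rw [div_le_one hy]; exact h1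
  have s3 : -1 ≤ x / y := by rw [le_div_iff₀ hy]; linarith
  have hx'0 : x' ≠ 0 := hx'.ne
  have e : x * y' - x' * y = (-x' * y) * (1 - (x / y) * (y' / x')) := by
    field_simp
    ring
  have h3 : 0 ≤ 1 - (x / y) * (y' / x') := by nlinarith
  have h4 : -x' * y ≤ 1 := mul_le_one₀ (by linarith) hy.le hy1
  have h5 : 0 < -x' * y := mul_pos (by linarith) hy
  rw [e, abs_of_nonneg (mul_nonneg h5.le h3), abs_sub_comm, abs_of_nonneg (by linarith)]
  have h6 : -x' * y * (1 - (x / y) * (y' / x')) ≤ 1 - (x / y) * (y' / x') := mul_le_of_le_one_left h3 h4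
  nlinarith [mul_nonneg (by linarith : 0 ≤ 1 + x / y) (by linarith : 0 ≤ 1 + y' / x')]

private theorem t13_38 {x y x' y' : ℝ} (hy : 0 < y) (hyx : y ≤ x) (hx1 : x ≤ 1)
    (hy' : 0 < y') (hyx' : x' ≤ -y') (hx1' : -1 ≤ x') : |x * y' - x' * y| ≤ |y / x - (4 + y' / x')| := by
  have hx : 0 < x := by linarith
  have hx' : x' < 0 := by linarith
  have s1 : -1 ≤ y' / x' := by
    rw [le_div_iff_of_neg hx']
    linarith
  have s0 : y' / x' < 0 := div_neg_of_pos_of_neg hy' hx'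
  have s2 : y / x ≤ 1 := by rw [div_le_one hx]; exact hyx
  have s3 : 0 < y / x := div_pos hy hx
  have hx'0 : x' ≠ 0 := hx'.ne
  have e : x * y' - x' * y = (x * -x') * (y / x - y' / x') := by
    field_simp
    ring
  have h3 : 0 ≤ y / x - y' / x' := by linarith
  have h4 : x * -x' ≤ 1 := mul_le_one₀ hx1 (by linarith) (by linarith)
  have h5 : 0 < x * -x' := mul_pos hx (by linarith)
  rw [e, abs_of_nonneg (mul_nonneg h5.le h3), abs_sub_comm, abs_of_nonneg (by linarith)]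
  have h6 : x * -x' * (y / x - y' / x') ≤ y / x - y' / x' := mul_le_of_le_one_left h3 h4
  linarith

private theorem t33_38 {x y x' y' : ℝ} (hx : x < 0) (hx1 : -1 ≤ x) (hx' : x' < 0) (hx1' : -1 ≤ x') :
    |x * y' - x' * y| ≤ |(4 + y / x) - (4 + y' / x')| := by
  have h0 : x ≠ 0 := hx.ne
  have h0' : x' ≠ 0 := hx'.ne
  have e : x * y' - x' * y = (-x * -x') * -((4 + y / x) - (4 + y' / x')) := by
    field_simp
    ring
  rw [e, abs_mul, abs_neg, abs_of_pos (mul_pos (by linarith : 0 < -x) (by linarith : 0 < -x'))]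
  have h1 : -x * -x' ≤ 1 := mul_le_one₀ (by linarith) (by linarith) (by linarith)
  exact mul_le_of_le_one_left (abs_nonneg _) h1

private theorem tau_sep38 {x y x' y' : ℝ} (hy : 0 < y) (hy1 : y ≤ 1) (hx : |x| ≤ 1)
    (hy' : 0 < y') (hy1' : y' ≤ 1) (hx' : |x'| ≤ 1) :
    |x * y' - x' * y| ≤ |tau38 x y - tau38 x' y'| := by
  obtain ⟨a1, a2⟩ := abs_le.1 hx
  obtain ⟨b1, b2⟩ := abs_le.1 hx'
  have sym : |x * y' - x' * y| = |x' * y - x * y'| := abs_sub_comm _ _
  unfold tau38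
  by_cases c1 : y ≤ x
  · rw [if_pos c1]
    by_cases d1 : y' ≤ x'
    · rw [if_pos d1]
      exact t11_38 (by linarith) a2 (by linarith) b2
    · rw [if_neg d1]
      by_cases d2 : -y' ≤ x'
      · rw [if_pos d2]
        exact t12_38 hy c1 a2 hy' hy1' (by linarith) d2
      · rw [if_neg d2]
        exact t13_38 hy c1 a2 hy' (by linarith) b1
  · rw [if_neg c1]
    by_cases c2 : -y ≤ x
    · rw [if_pos c2]
      by_cases d1 : y' ≤ x'
      · rw [if_pos d1, sym, abs_sub_comm (2 - x / y)]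
        exact t12_38 hy' d1 b2 hy hy1 (by linarith) c2
      · rw [if_neg d1]
        by_cases d2 : -y' ≤ x'
        · rw [if_pos d2]
          exact t22_38 hy hy1 hy' hy1'
        · rw [if_neg d2]
          exact t23_38 hy hy1 (by linarith) c2 hy' (by linarith) b1
    · rw [if_neg c2]
      by_cases d1 : y' ≤ x'
      · rw [if_pos d1, sym, abs_sub_comm (4 + y / x)]
        exact t13_38 hy' d1 b2 hy (by linarith) a1
      · rw [if_neg d1]
        by_cases d2 : -y' ≤ x'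
        · rw [if_pos d2, sym, abs_sub_comm (4 + y / x)]
          exact t23_38 hy' hy1' (by linarith) d2 hy (by linarith) a1
        · rw [if_neg d2]
          exact t33_38 (by linarith) a1 (by linarith) b1

theorem plane {ι : Type} [Fintype ι] (v : ι → Fin 2 → ℝ)
    (hp : ∀ i j, i ≠ j → LinearIndependent ℝ ![v i, v j]) {D : ℝ} (hD : Ratio v D)
    (h2 : 2 ≤ Fintype.card ι) : (Fintype.card ι : ℝ) ≤ 4 * D := by
  classical
  have hne : ∀ i j, i ≠ j → w38 (v i) (v j) ≠ 0 := fun i j h => w_ne38 (hp i j h)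
  obtain ⟨i₀, j₀, hij₀⟩ : ∃ i j : ι, i ≠ j := Fintype.exists_pair_of_one_lt_card (by omega)
  have : Nonempty ι := ⟨i₀⟩
  obtain ⟨⟨a, b⟩, hmax⟩ := Finite.exists_max fun p : ι × ι => |w38 (v p.1) (v p.2)|
  have hmax' : ∀ i j, |w38 (v i) (v j)| ≤ |w38 (v a) (v b)| := fun i j => hmax (i, j)
  have hW : 0 < |w38 (v a) (v b)| := lt_of_lt_of_le (abs_pos.2 (hne i₀ j₀ hij₀)) (hmax' i₀ j₀)
  have hW0 : w38 (v a) (v b) ≠ 0 := abs_pos.1 hW
  obtain ⟨W, hWd⟩ : ∃ W, w38 (v a) (v b) = W := ⟨_, rfl⟩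
  rw [hWd] at hW hW0
  simp only [hWd] at hmax'
  have hratio : ∀ i j, i ≠ j → |W| ≤ D * |w38 (v i) (v j)| := by
    intro i j hij
    have h := hD ![a, b] ![i, j] (by rw [G38]; exact hne i j hij)
    rw [G38, G38, hWd] at h
    exact h
  have hab : a ≠ b := by
    rintro rfl
    apply hW0
    rw [← hWd]
    unfold w38
    ring
  have hD1 : 1 ≤ D := by
    have h := hratio a b hab
    rw [hWd] at h
    by_contra hcon
    nlinarith
  have hD0 : 0 < D := by linarith
  -- coordinates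
  obtain ⟨x, hx⟩ : ∃ x : ι → ℝ, ∀ i, x i = w38 (v i) (v b) / W := ⟨_, fun _ => rfl⟩
  obtain ⟨y, hy⟩ : ∃ y : ι → ℝ, ∀ i, y i = w38 (v a) (v i) / W := ⟨_, fun _ => rfl⟩
  have hx1 : ∀ i, |x i| ≤ 1 := by
    intro i
    rw [hx, abs_div, div_le_one hW]
    exact hmax' _ _
  have hy1 : ∀ i, |y i| ≤ 1 := by
    intro i
    rw [hy, abs_div, div_le_one hW]
    exact hmax' _ _
  have hxy : ∀ i j, x i * y j - x j * y i = w38 (v i) (v j) / W := by
    intro i j
    rw [hx, hx, hy, hy]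
    have e : w38 (v i) (v b) * w38 (v a) (v j) - w38 (v j) (v b) * w38 (v a) (v i) = w38 (v i) (v j) * W := by
      rw [← hWd]
      unfold w38
      ring
    field_simp
    linear_combination e
  have hsep : ∀ i j, i ≠ j → 1 ≤ D * |x i * y j - x j * y i| := by
    intro i j hij
    rw [hxy, abs_div, mul_div_assoc', le_div_iff₀ hW, one_mul]
    exact hratio i j hij
  have hysep : ∀ i, i ≠ a → 1 ≤ D * |y i| := by
    intro i hi
    rw [hy, abs_div, mul_div_assoc', le_div_iff₀ hW, one_mul]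
    exact hratio a i (Ne.symm hi)
  -- change of signs
  obtain ⟨σ, hσ⟩ : ∃ σ : ι → ℝ, ∀ i, σ i = if y i < 0 then -1 else 1 := ⟨_, fun _ => rfl⟩
  have hσ1 : ∀ i, |σ i| = 1 := by
    intro i
    rw [hσ]
    split_ifs <;> norm_num
  have hσy : ∀ i, σ i * y i = |y i| := by
    intro i
    rw [hσ]
    split_ifs with h
    · rw [abs_of_neg h]
      ring
    · rw [abs_of_nonneg (not_lt.1 h)]
      ring
  obtain ⟨T, hT⟩ : ∃ T : ι → ℝ, ∀ i, T i = D * tau38 (σ i * x i) |y i| := ⟨_, fun _ => rfl⟩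
  have hypos : ∀ i, i ≠ a → 0 < |y i| := by
    intro i hi
    have h := hysep i hi
    by_contra hcon
    have h0 : |y i| = 0 := le_antisymm (not_lt.1 hcon) (abs_nonneg _)
    rw [h0, mul_zero] at h
    linarith
  have hX1 : ∀ i, |σ i * x i| ≤ 1 := by
    intro i
    rw [abs_mul, hσ1, one_mul]
    exact hx1 i
  have hTbd : ∀ i, i ≠ a → 1 ≤ T i ∧ T i ≤ 4 * D - 1 := by
    intro i hi
    rcases tau_bd38 (hypos i hi) (hX1 i) with ⟨h1, h2⟩ | h1
    · have h3 := hysep i hi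
      rw [hT]
      constructor
      · exact h3.trans (mul_le_mul_of_nonneg_left h1 hD0.le)
      · have h4 := mul_le_mul_of_nonneg_left h2 hD0.le
        linarith
    · exact absurd h1 (not_lt.2 (hy1 i))
  have hTsep : ∀ i j, i ≠ a → j ≠ a → i ≠ j → 1 ≤ |T i - T j| := by
    intro i j hi hj hij
    have h1 := tau_sep38 (hypos i hi) (hy1 i) (hX1 i) (hypos j hj) (hy1 j) (hX1 j)
    have h2 : |(σ i * x i * |y j| - σ j * x j * |y i|)| = |x i * y j - x j * y i| := by
      rw [← hσy i, ← hσy j]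
      have e : σ i * x i * (σ j * y j) - σ j * x j * (σ i * y i) = σ i * σ j * (x i * y j - x j * y i) := by ring
      rw [e, abs_mul, abs_mul, hσ1, hσ1, one_mul, one_mul]
    rw [h2] at h1
    rw [hT, hT, ← mul_sub, abs_mul, abs_of_pos hD0]
    exact (hsep i j hij).trans (mul_le_mul_of_nonneg_left h1 hD0.le)
  -- counting
  have hcard : (univ.erase a).card ≤ (Finset.Icc (1 : ℤ) ⌊4 * D - 1⌋).card := by
    refine Finset.card_le_card_of_injOn (fun i => ⌊T i⌋) ?_ ?_
    · intro i hi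
      have hia := Finset.ne_of_mem_erase (Finset.mem_coe.1 hi)
      obtain ⟨h1, h2⟩ := hTbd i hia
      rw [Finset.mem_coe, Finset.mem_Icc]
      exact ⟨Int.le_floor.2 (by exact_mod_cast h1), Int.floor_le_floor h2⟩
    · intro i hi j hj hij
      have hia := Finset.ne_of_mem_erase (Finset.mem_coe.1 hi)
      have hja := Finset.ne_of_mem_erase (Finset.mem_coe.1 hj)
      by_contra hne'
      have h1 := hTsep i j hia hja hne'
      have h2 := Int.abs_sub_lt_one_of_floor_eq_floor hij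
      linarith
  rw [Finset.card_erase_of_mem (Finset.mem_univ a), Finset.card_univ, Int.card_Icc] at hcard
  have hfl : (⌊4 * D - 1⌋ : ℝ) ≤ 4 * D - 1 := Int.floor_le _
  have hfl0 : 0 ≤ ⌊4 * D - 1⌋ := Int.floor_nonneg.2 (by linarith)
  have h3 : (Fintype.card ι : ℤ) - 1 ≤ ⌊4 * D - 1⌋ := by omega
  have h4 : ((Fintype.card ι : ℝ) - 1) ≤ (⌊4 * D - 1⌋ : ℝ) := by exact_mod_cast h3
  linarith

end Pool.Agent.Helper80.VR
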