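import Pool.Agent.Helper80.VR.Rich
import Pool.Agent.Helper80.VR.Contract
import Pool.Agent.Helper80.VR.Plane

/-!
# VR: the main induction
-/

namespace Pool.Agent.Helper80.VR

open Finset

variable {ι : Type}

/-- the statement for rank `r` -/
def Stmt (ι : Type) (D : ℝ) (r : ℕ) : Prop :=
  ∀ v : ι → Fin r → ℝ, Submodule.span ℝ (Set.range v) = ⊤ → Ratio v D → ∀ J : Finset ι,
    J.Nonempty → (∀ i ∈ J, v i ≠ 0) →
    (∀ i ∈ J, ∀ j ∈ J, i ≠ j → LinearIndependent ℝ ![v i, v j]) →
    (#J : ℝ) ≤ H D (Module.finrank ℝ (Submodule.span ℝ (v '' (J : Set ι))))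

theorem span_map {r : ℕ} (v : ι → Fin (r + 1) → ℝ)
    (hs : Submodule.span ℝ (Set.range v) = ⊤) (T : (Fin (r + 1) → ℝ) →ₗ[ℝ] (Fin r → ℝ))
    (hT : Function.Surjective T) :
    Submodule.span ℝ (Set.range (fun j => T (v j))) = ⊤ := by
  have : Set.range (fun j => T (v j)) = T '' Set.range v := by
    rw [← Set.range_comp]; rfl
  rw [this, Submodule.span_image, hs, Submodule.map_top, LinearMap.range_eq_top.2 hT]

/-- a set of vectors that does not span: contract a vector outside of its span -/
theorem small_rank {D : ℝ} {r : ℕ} (ih : Stmt ι D r) (v : ι → Fin (r + 1) → ℝ)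
    (hs : Submodule.span ℝ (Set.range v) = ⊤) (hD : Ratio v D) (J : Finset ι)
    (hJ : J.Nonempty) (h0 : ∀ i ∈ J, v i ≠ 0)
    (hp : ∀ i ∈ J, ∀ j ∈ J, i ≠ j → LinearIndependent ℝ ![v i, v j])
    (hlt : Module.finrank ℝ (Submodule.span ℝ (v '' (J : Set ι))) < r + 1) :
    (#J : ℝ) ≤ H D (Module.finrank ℝ (Submodule.span ℝ (v '' (J : Set ι)))) := by
  set U := Submodule.span ℝ (v '' (J : Set ι)) with hU
  have hne : U ≠ ⊤ := by
    intro h
    rw [h, finrank_top, Module.finrank_fin_fun] at hlt
    omega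
  obtain ⟨k, hk⟩ : ∃ k, v k ∉ U := by
    by_contra hcon
    push Not at hcon
    apply hne
    rw [eq_top_iff, ← hs, Submodule.span_le]
    rintro _ ⟨k, rfl⟩
    exact hcon k
  have hk0 : v k ≠ 0 := fun h => hk (h ▸ U.zero_mem)
  obtain ⟨T, hTs, hTk, hTD⟩ := contract v hD k hk0
  have hdisj : Disjoint U (LinearMap.ker T) := by
    rw [hTk, Submodule.disjoint_def]
    intro x hxU hx
    obtain ⟨a, rfl⟩ := Submodule.mem_span_singleton.1 hx
    by_cases ha : a = 0
    · simp [ha]
    · exact absurd ((Submodule.smul_mem_iff U ha).1 hxU) hk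
  have hmem : ∀ i ∈ J, v i ∈ U := fun i hi => Submodule.subset_span ⟨i, hi, rfl⟩
  have hres := ih (fun j => T (v j)) (span_map v hs T hTs) hTD J hJ ?_ ?_
  · have himg : (fun j => T (v j)) '' (J : Set ι) = T '' (v '' (J : Set ι)) := by
      rw [Set.image_image]
    rw [himg, Submodule.span_image, ← hU] at hres
    have hfin : Module.finrank ℝ (Submodule.map T U) = Module.finrank ℝ U := by
      have hinj : Function.Injective (T.domRestrict U) := by
        rw [← LinearMap.ker_eq_bot, LinearMap.ker_eq_bot']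
        intro x hx
        have h1 : (x : Fin (r + 1) → ℝ) ∈ LinearMap.ker T := hx
        have := (Submodule.disjoint_def.1 hdisj) x x.2 h1
        exact Subtype.ext this
      have h2 := LinearMap.finrank_range_of_inj hinj
      rw [LinearMap.range_domRestrict] at h2
      exact h2
    rw [hfin] at hres
    exact hres
  · intro i hi h
    exact h0 i hi ((Submodule.disjoint_def.1 hdisj) _ (hmem i hi) h)
  · intro i hi j hj hij
    have h1 := hp i hi j hj hij
    have h2 : LinearIndependent ℝ (T ∘ ![v i, v j]) := by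
      refine h1.map (hdisj.mono_left ?_)
      rw [Submodule.span_le]
      rintro _ ⟨l, rfl⟩
      fin_cases l
      · exact hmem i hi
      · exact hmem j hj
    convert h2 using 1
    ext l
    fin_cases l <;> rfl

theorem H_le {D : ℝ} (hD : 1 ≤ D) {d r : ℕ} (hd : 1 ≤ d) (hdr : d ≤ r) :
    (r : ℝ) * H D d ≤ d * H D r := by
  unfold H
  have h1 : (1 : ℝ) ≤ d := by exact_mod_cast hd
  have h2 : (d : ℝ) ≤ r := by exact_mod_cast hdr
  have h3 : 0 ≤ (d : ℝ) * r * ((r - d) * (2 * D - 1)) := by
    have : 0 ≤ 2 * D - 1 := by linarith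
    have : 0 ≤ (r : ℝ) - d := by linarith
    positivity
  nlinarith

theorem H_mono {D : ℝ} (hD : 1 ≤ D) {d r : ℕ} (hd : 1 ≤ d) (hdr : d ≤ r) :
    H D d ≤ H D r := by
  have h := H_le hD hd hdr
  have h1 : (1 : ℝ) ≤ d := by exact_mod_cast hd
  have h2 : (d : ℝ) ≤ r := by exact_mod_cast hdr
  have h3 : 0 ≤ H D d := by
    unfold H
    have : 0 ≤ (d : ℝ) * (d - 1) * (2 * D - 1) := by
      have : 0 ≤ 2 * D - 1 := by linarith
      have : 0 ≤ (d : ℝ) - 1 := by linarith
      positivity
    linarith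
  have h4 : (d : ℝ) * H D d ≤ r * H D d := by gcongr
  have h5 : (d : ℝ) * H D d ≤ d * H D r := h4.trans h
  exact le_of_mul_le_mul_left h5 (by linarith)

theorem exists_G_ne {r : ℕ} (v : ι → Fin r → ℝ) (hs : Submodule.span ℝ (Set.range v) = ⊤) :
    ∃ f : Fin r → ι, G v f ≠ 0 := by
  classical
  obtain ⟨b, hb1, hb2, hb3⟩ := exists_linearIndependent ℝ (Set.range v)
  rw [hs] at hb2
  have hcard : Module.finrank ℝ (Fin r → ℝ) = r := Module.finrank_fin_fun ℝ
  let B : Module.Basis b ℝ (Fin r → ℝ) := Module.Basis.mk hb3 (by rw [Subtype.range_coe]; exact hb2.ge)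
  have hfin : Finite b := Module.Finite.finite_basis B
  have : Fintype b := Fintype.ofFinite b
  have hbc : Fintype.card b = r := by
    rw [← Module.finrank_eq_card_basis B, hcard]
  let e : Fin r ≃ b := (Fintype.equivFinOfCardEq hbc).symm
  choose g hg using fun x : b => hb1 x.2
  refine ⟨fun k => g (e k), ?_⟩
  have hli : LinearIndependent ℝ (fun k : Fin r => v (g (e k))) := by
    have : (fun k : Fin r => v (g (e k))) = (fun x : b => (x : Fin r → ℝ)) ∘ e := by
      funext k
      exact hg (e k)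
    rw [this]
    exact hb3.comp e e.injective
  unfold G
  have h3 := Matrix.linearIndependent_rows_iff_isUnit.1
    (show LinearIndependent ℝ (Matrix.of fun k : Fin r => v (g (e k))).row from hli)
  rw [Matrix.isUnit_iff_isUnit_det] at h3
  exact h3.ne_zero

theorem one_le_D {r : ℕ} {v : ι → Fin r → ℝ} {D : ℝ}
    (hs : Submodule.span ℝ (Set.range v) = ⊤) (hD : Ratio v D) : 1 ≤ D := by
  obtain ⟨f, hf⟩ := exists_G_ne v hs
  have h1 := hD f f hf
  have h2 : 0 < |G v f| := abs_pos.2 hf
  nlinarith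

theorem ratio_comp {κ : Type} {r : ℕ} {v : ι → Fin r → ℝ} {D : ℝ} (hD : Ratio v D) (f : κ → ι) :
    Ratio (fun k => v (f k)) D := fun a b h => hD (fun k => f (a k)) (fun k => f (b k)) h

theorem full_rank {D : ℝ} {r : ℕ} (ih : Stmt ι D (r + 2)) (v : ι → Fin (r + 3) → ℝ)
    (hs : Submodule.span ℝ (Set.range v) = ⊤) (hD : Ratio v D) (J : Finset ι)
    (hJ : J.Nonempty) (h0 : ∀ i ∈ J, v i ≠ 0)
    (hp : ∀ i ∈ J, ∀ j ∈ J, i ≠ j → LinearIndependent ℝ ![v i, v j]) :
    (#J : ℝ) ≤ H D (r + 3) := by
  classical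
  have hD1 : 1 ≤ D := one_le_D hs hD
  have hr0 : (0 : ℝ) ≤ r := Nat.cast_nonneg r
  by_cases hex : ∃ (U : Submodule ℝ (Fin (r + 3) → ℝ)) (J' : Finset ι), J' ⊆ J ∧
      (∀ i ∈ J', v i ∈ U) ∧ (#J : ℝ) * Module.finrank ℝ U < ((r + 3 : ℕ) : ℝ) * #J'
  · obtain ⟨U, J', hsub, hJU, hlt⟩ := hex
    have hJ'ne : J'.Nonempty := by
      rw [Finset.nonempty_iff_ne_empty]
      rintro rfl
      simp only [Finset.card_empty, Nat.cast_zero, mul_zero] at hlt
      have : (0 : ℝ) ≤ (#J : ℝ) * Module.finrank ℝ U := by positivity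
      linarith
    set d := Module.finrank ℝ (Submodule.span ℝ (v '' (J' : Set ι))) with hd
    have hdU : d ≤ Module.finrank ℝ U := by
      apply Submodule.finrank_mono
      rw [Submodule.span_le]
      rintro _ ⟨i, hi, rfl⟩
      exact hJU i hi
    have hd1 : 1 ≤ d := by
      obtain ⟨i, hi⟩ := hJ'ne
      rw [hd, Nat.one_le_iff_ne_zero]
      intro hz
      rw [Submodule.finrank_eq_zero] at hz
      have : v i ∈ Submodule.span ℝ (v '' (J' : Set ι)) := Submodule.subset_span ⟨i, hi, rfl⟩
      rw [hz, Submodule.mem_bot] at this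
      exact h0 i (hsub hi) this
    have hlt2 : (#J : ℝ) * d < ((r + 3 : ℕ) : ℝ) * #J' := by
      refine lt_of_le_of_lt ?_ hlt
      have : (d : ℝ) ≤ Module.finrank ℝ U := by exact_mod_cast hdU
      gcongr
    have hJJ' : (#J' : ℝ) ≤ #J := by exact_mod_cast Finset.card_le_card hsub
    have hdlt : d < r + 3 := by
      by_contra hcon
      push Not at hcon
      have h1 : ((r + 3 : ℕ) : ℝ) ≤ d := by exact_mod_cast hcon
      have h2 : ((r + 3 : ℕ) : ℝ) * #J' ≤ (#J : ℝ) * d := by
        rw [mul_comm]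
        gcongr
      linarith
    have hsm := small_rank ih v hs hD J' hJ'ne (fun i hi => h0 i (hsub hi))
      (fun i hi j hj => hp i (hsub hi) j (hsub hj)) hdlt
    rw [← hd] at hsm
    have hle := H_le hD1 hd1 hdlt.le
    have h1 : (#J : ℝ) * d < d * H D (r + 3) := by
      calc (#J : ℝ) * d < ((r + 3 : ℕ) : ℝ) * #J' := hlt2
        _ ≤ ((r + 3 : ℕ) : ℝ) * H D d := by gcongr
        _ ≤ d * H D (r + 3) := hle
    have hd0 : (0 : ℝ) < d := by exact_mod_cast hd1
    have h2 : (#J : ℝ) < H D (r + 3) := by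
      rw [mul_comm] at h1
      exact lt_of_mul_lt_mul_left h1 hd0.le
    exact h2.le
  · push Not at hex
    let κ := {x // x ∈ J}
    have : Nonempty κ := ⟨⟨hJ.choose, hJ.choose_spec⟩⟩
    have hcard : Fintype.card κ = #J := Fintype.card_coe J
    have hpκ : ∀ i j : κ, i ≠ j → LinearIndependent ℝ ![v i, v j] := by
      intro i j hij
      exact hp i i.2 j j.2 (fun h => hij (Subtype.ext h))
    obtain ⟨i, hi⟩ := exists_rich (ι := κ) (by omega) (fun x : κ => v x) hpκ (by
      intro U J' hJ'
      have h1 := hex U (J'.map ⟨Subtype.val, Subtype.val_injective⟩) (by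
        intro x hx
        rw [Finset.mem_map] at hx
        obtain ⟨y, _, rfl⟩ := hx
        exact y.2) (by
        intro x hx
        rw [Finset.mem_map] at hx
        obtain ⟨y, hy, rfl⟩ := hx
        exact hJ' y hy)
      rw [Finset.card_map] at h1
      rw [hcard]
      exact h1)
    obtain ⟨R, hiR, hRc, hR⟩ := exists_reps (fun x : κ => v x) hpκ i
    rw [hcard, ← hRc] at hi
    -- contract v i
    have hvi : v i ≠ 0 := h0 i i.2
    obtain ⟨T, hTs, hTk, hTD⟩ := contract v hD (i : ι) hvi
    set R' : Finset ι := R.map ⟨Subtype.val, Subtype.val_injective⟩ with hR'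
    have hR'c : #R' = #R := Finset.card_map _
    have hRpos : (0 : ℝ) < #R := by
      have h3 : (0 : ℝ) ≤ (#J : ℝ) * (1 - 2 / ((r + 3 : ℕ) : ℝ)) := by
        apply mul_nonneg (Nat.cast_nonneg _)
        rw [sub_nonneg, div_le_one (by positivity)]
        push_cast
        linarith
      linarith
    have hR'ne : R'.Nonempty := by
      rw [← Finset.card_pos, hR'c]
      exact_mod_cast hRpos
    have hmemR : ∀ x ∈ R', ∃ y : κ, y ∈ R ∧ (y : ι) = x := by
      intro x hx
      rw [hR', Finset.mem_map] at hx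
      obtain ⟨y, hy, rfl⟩ := hx
      exact ⟨y, hy, rfl⟩
    have hres := ih (fun j => T (v j)) (span_map v hs T hTs) hTD R' hR'ne ?_ ?_
    · have hfr : Module.finrank ℝ (Submodule.span ℝ ((fun j => T (v j)) '' (R' : Set ι))) ≤ r + 2 := by
        have := Submodule.finrank_le (Submodule.span ℝ ((fun j => T (v j)) '' (R' : Set ι)))
        rwa [Module.finrank_fin_fun] at this
      have hfr1 : 1 ≤ Module.finrank ℝ
          (Submodule.span ℝ ((fun j => T (v j)) '' (R' : Set ι))) := by
        obtain ⟨x, hx⟩ := hR'ne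
        rw [Nat.one_le_iff_ne_zero]
        intro hz
        rw [Submodule.finrank_eq_zero] at hz
        have hm : T (v x) ∈ Submodule.span ℝ ((fun j => T (v j)) '' (R' : Set ι)) :=
          Submodule.subset_span ⟨x, hx, rfl⟩
        rw [hz, Submodule.mem_bot] at hm
        obtain ⟨y, hy, rfl⟩ := hmemR x hx
        have hyi : i ≠ y := fun h => hiR (h ▸ hy)
        have hk : v y ∈ LinearMap.ker T := hm
        rw [hTk] at hk
        have hind := hpκ i y hyi
        obtain ⟨a, ha⟩ := Submodule.mem_span_singleton.1 hk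
        have := (LinearIndependent.pair_iff.1 hind) a (-1) (by
          simp [ha])
        norm_num at this
      have h4 := hres.trans (H_mono hD1 hfr1 hfr)
      rw [hR'c] at h4
      have h5 : (#J : ℝ) * (1 - 2 / ((r + 3 : ℕ) : ℝ)) + 1 ≤ H D (r + 2) := hi.trans h4
      unfold H at h5 ⊢
      push_cast at h5 ⊢
      have h6 : (0 : ℝ) < (r : ℝ) + 3 := by linarith
      have h7 : (#J : ℝ) * (1 - 2 / ((r : ℝ) + 3)) = #J * (r + 1) / (r + 3) := by
        field_simp
        ring
      rw [h7] at h5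
      have h8 : (#J : ℝ) * (r + 1) ≤ ((r : ℝ) + 3) * ((r + 1) + (r + 2) * (r + 1) * (2 * D - 1)) := by
        have h9 : (#J : ℝ) * (r + 1) / (r + 3) ≤ ((r + 1) + (r + 2) * (r + 1) * (2 * D - 1)) := by
          linarith
        rw [div_le_iff₀ h6] at h9
        linarith
      have h10 : (0 : ℝ) < (r : ℝ) + 1 := by linarith
      have h11 : ((r : ℝ) + 1) * #J ≤ ((r : ℝ) + 1) * (r + 3 + (r + 3) * (r + 3 - 1) * (2 * D - 1)) := by
        nlinarith
      exact le_of_mul_le_mul_left h11 h10
    · intro x hx h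
      obtain ⟨y, hy, rfl⟩ := hmemR x hx
      have hyi : i ≠ y := fun h => hiR (h ▸ hy)
      have hk : v y ∈ LinearMap.ker T := h
      rw [hTk] at hk
      have hind := hpκ i y hyi
      obtain ⟨a, ha⟩ := Submodule.mem_span_singleton.1 hk
      have := (LinearIndependent.pair_iff.1 hind) a (-1) (by
        simp [ha])
      norm_num at this
    · intro x hx y hy hxy
      obtain ⟨x', hx', rfl⟩ := hmemR x hx
      obtain ⟨y', hy', rfl⟩ := hmemR y hy
      have hxy' : x' ≠ y' := fun h => hxy (congrArg Subtype.val h)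
      have hind := hR x' hx' y' hy' hxy'
      rw [LinearIndependent.pair_iff]
      intro a b hab
      have h1 : a • v x' + b • v y' ∈ LinearMap.ker T := by
        rw [LinearMap.mem_ker, map_add, map_smul, map_smul]
        exact hab
      rw [hTk] at h1
      obtain ⟨c, hc⟩ := Submodule.mem_span_singleton.1 h1
      have h2 := (Fintype.linearIndependent_iff.1 hind) ![-c, a, b] (by
        rw [Fin.sum_univ_three]
        change (-c) • v i + a • v x' + b • v y' = 0
        rw [neg_smul, hc]
        abel)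
      exact ⟨h2 1, h2 2⟩

theorem stmt_all {D : ℝ} : ∀ r : ℕ, Stmt ι D r := by
  classical
  intro r
  induction r with
  | zero =>
    intro v _ _ J hJ h0 _
    obtain ⟨i, hi⟩ := hJ
    exact absurd (Subsingleton.elim _ _) (h0 i hi)
  | succ r ih =>
    intro v hs hD J hJ h0 hp
    by_cases hlt : Module.finrank ℝ (Submodule.span ℝ (v '' (J : Set ι))) < r + 1
    · exact small_rank ih v hs hD J hJ h0 hp hlt
    · have hle := Submodule.finrank_le (Submodule.span ℝ (v '' (J : Set ι)))
      rw [Module.finrank_fin_fun] at hle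
      have heq : Module.finrank ℝ (Submodule.span ℝ (v '' (J : Set ι))) = r + 1 := by omega
      rw [heq]
      have hD1 : 1 ≤ D := one_le_D hs hD
      match r, ih, v, hs, hD, h0, hp, heq with
      | 0, ih, v, hs, hD, h0, hp, heq =>
        have hc : #J ≤ 1 := by
          by_contra hcon
          push Not at hcon
          obtain ⟨i, hi, j, hj, hij⟩ := Finset.one_lt_card.1 hcon
          have h1 := (hp i hi j hj hij).fintype_card_le_finrank
          simp at h1
        have : (#J : ℝ) ≤ 1 := by exact_mod_cast hc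
        unfold H
        push_cast
        linarith
      | 1, ih, v, hs, hD, h0, hp, heq =>
        have hc2 : 2 ≤ #J := by
          have h1 : Module.finrank ℝ (Submodule.span ℝ (v '' (J : Set ι))) ≤ #J := by
            rw [← Finset.coe_image]
            exact (finrank_span_finset_le_card _).trans Finset.card_image_le
          omega
        have h2 := plane (fun x : {x // x ∈ J} => v x) (fun i j hij =>
          hp i i.2 j j.2 (fun h => hij (Subtype.ext h))) (ratio_comp hD _)
          (by rw [Fintype.card_coe]; exact hc2)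
        rw [Fintype.card_coe] at h2
        unfold H
        push_cast
        linarith
      | r + 2, ih, v, hs, hD, h0, hp, heq =>
        exact full_rank ih v hs hD J hJ h0 hp

/-- Pairwise independent spanning vectors of `Fin r → ℝ`, `r ≥ 1`, all of whose nonzero maximal
minors are within a factor `D`: at most `r + r (r - 1) (2 D - 1)` of them. -/
theorem card_le [Fintype ι] {D : ℝ} {r : ℕ} (hr : 1 ≤ r) (v : ι → Fin r → ℝ)
    (hs : Submodule.span ℝ (Set.range v) = ⊤) (hD : Ratio v D)
    (hp : ∀ i j, i ≠ j → LinearIndependent ℝ ![v i, v j]) (h2 : 2 ≤ Fintype.card ι) :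
    (Fintype.card ι : ℝ) ≤ r + r * (r - 1) * (2 * D - 1) := by
  classical
  have : Nontrivial ι := Fintype.one_lt_card_iff_nontrivial.1 (by omega)
  have h0 : ∀ i, v i ≠ 0 := by
    intro i
    obtain ⟨j, hj⟩ := exists_ne i
    have := (hp i j hj.symm).ne_zero 0
    simpa using this
  have h1 := stmt_all (D := D) r v hs hD Finset.univ Finset.univ_nonempty (fun i _ => h0 i)
    (fun i _ j _ => hp i j)
  rw [Finset.coe_univ, Set.image_univ, hs, finrank_top, Module.finrank_fin_fun,
    Finset.card_univ] at h1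
  exact h1

end Pool.Agent.Helper80.VR
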