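import Pool.Agent.Helper80.VR.Defs

/-!
# VR-MIN: a minimum point of a penalised function, and one variable

`exists_min`: `Φ t = Ψ t + δ/2 * ∑ i, t i ^ 2` is continuous; outside the compact set
`{t | ∀ i, |t i| ≤ R}` with `δ/2 * R^2 ≥ Ψ 0 - c0` we have `Φ t ≥ c0 + δ/2 * R^2 ≥ Ψ 0 = Φ 0`, so a
minimum point on the compact set (`IsCompact.exists_isMinOn`) is a global one. At the minimum point
`δ/2 * (t i)^2 ≤ Φ t - c0 ≤ Ψ 0 - c0`; multiply by `2 δ`.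
`one_var`: the function `h ↦ log (1 + (exp h - 1) * κ) - ρ * h + δ/2 * ((τ + h)^2 - τ^2)` is `≥ 0`
near `0` and `0` at `h = 0`, so its derivative at `0`, which is `κ - ρ + δ * τ`, vanishes
(`IsLocalMin.hasDerivAt_eq_zero`).
-/

namespace Pool.Agent.Helper80.VR

open Finset

theorem exists_min {ι : Type} [Fintype ι] (Ψ : (ι → ℝ) → ℝ) (hc : Continuous Ψ) (c0 : ℝ)
    (hlow : ∀ t, c0 ≤ Ψ t) (δ : ℝ) (hδ : 0 < δ) :
    ∃ t : ι → ℝ, (∀ s : ι → ℝ, Ψ t + δ / 2 * ∑ i, t i ^ 2 ≤ Ψ s + δ / 2 * ∑ i, s i ^ 2) ∧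
      ∀ i, (δ * t i) ^ 2 ≤ 2 * δ * (Ψ 0 - c0) := by
  classical
  have h0 : 0 ≤ Ψ 0 - c0 := sub_nonneg.2 (hlow 0)
  set R : ℝ := Real.sqrt (2 * (Ψ 0 - c0) / δ) with hR
  have hR0 : 0 ≤ R := Real.sqrt_nonneg _
  have hR2 : δ / 2 * R ^ 2 = Ψ 0 - c0 := by
    rw [hR, Real.sq_sqrt (div_nonneg (mul_nonneg zero_le_two h0) hδ.le)]
    field_simp
  have hK : IsCompact (Set.pi Set.univ fun _ : ι => Set.Icc (-R) R) := isCompact_univ_pi fun _ => isCompact_Icc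
  have h0K : (0 : ι → ℝ) ∈ Set.pi Set.univ fun _ : ι => Set.Icc (-R) R := by
    intro i _
    exact ⟨by simpa using hR0, hR0⟩
  have hcont : Continuous fun t : ι → ℝ => Ψ t + δ / 2 * ∑ i, t i ^ 2 := by fun_prop
  obtain ⟨t, htK, ht⟩ := hK.exists_isMinOn ⟨0, h0K⟩ hcont.continuousOn
  have hsq : ∀ (s : ι → ℝ) (i : ι), s i ^ 2 ≤ ∑ j, s j ^ 2 := fun s i =>
    Finset.single_le_sum (f := fun j => s j ^ 2) (fun j _ => sq_nonneg (s j)) (Finset.mem_univ i)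
  have ht0 : Ψ t + δ / 2 * ∑ i, t i ^ 2 ≤ Ψ 0 := by
    have h1 := isMinOn_iff.1 ht 0 h0K
    simpa using h1
  refine ⟨t, fun s => ?_, fun i => ?_⟩
  · by_cases hs : s ∈ Set.pi Set.univ fun _ : ι => Set.Icc (-R) R
    · exact isMinOn_iff.1 ht s hs
    · have h1 : ∃ i, s i ∉ Set.Icc (-R) R := by
        by_contra hcon
        push Not at hcon
        exact hs fun i _ => hcon i
      obtain ⟨i, hi⟩ := h1
      have h2 : R ^ 2 ≤ s i ^ 2 := by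
        rw [← sq_abs (s i)]
        have h3 : R ≤ |s i| := by
          by_contra hlt
          push Not at hlt
          exact hi ⟨(abs_lt.1 hlt).1.le, (abs_lt.1 hlt).2.le⟩
        exact pow_le_pow_left₀ hR0 h3 2
      have h4 : δ / 2 * R ^ 2 ≤ δ / 2 * ∑ j, s j ^ 2 :=
        mul_le_mul_of_nonneg_left (h2.trans (hsq s i)) (by positivity)
      have h5 := hlow s
      linarith
  · have h1 : δ / 2 * t i ^ 2 ≤ δ / 2 * ∑ j, t j ^ 2 := mul_le_mul_of_nonneg_left (hsq t i) (by positivity)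
    have h2 := hlow t
    have h3 : δ / 2 * t i ^ 2 ≤ Ψ 0 - c0 := by linarith
    have h4 := mul_le_mul_of_nonneg_left h3 (by positivity : (0 : ℝ) ≤ 2 * δ)
    calc (δ * t i) ^ 2 = 2 * δ * (δ / 2 * t i ^ 2) := by ring
      _ ≤ 2 * δ * (Ψ 0 - c0) := h4

theorem one_var (κ ρ δ τ : ℝ)
    (h : ∀ x : ℝ, 0 ≤ Real.log (1 + (Real.exp x - 1) * κ) - ρ * x + δ / 2 * ((τ + x) ^ 2 - τ ^ 2)) :
    κ - ρ + δ * τ = 0 := by
  have h1 : HasDerivAt (fun x : ℝ => 1 + (Real.exp x - 1) * κ) (Real.exp 0 * κ) 0 :=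
    ((((Real.hasDerivAt_exp 0).sub_const 1).mul_const κ).const_add 1)
  have h2 : HasDerivAt (fun x : ℝ => Real.log (1 + (Real.exp x - 1) * κ)) (Real.exp 0 * κ / (1 + (Real.exp 0 - 1) * κ)) 0 :=
    h1.log (by simp)
  have h3 : HasDerivAt (fun x : ℝ => ρ * x) (ρ * 1) 0 := (hasDerivAt_id 0).const_mul ρ
  have h4 : HasDerivAt (fun x : ℝ => (τ + x) ^ 2 - τ ^ 2) (2 * (τ + 0) ^ 1 * 1) 0 := by
    have h5 := (((hasDerivAt_id (0 : ℝ)).const_add τ).pow 2).sub_const (τ ^ 2)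
    simpa using h5
  have h6 := (h2.sub h3).add (h4.const_mul (δ / 2))
  have hmin : IsLocalMin (fun x : ℝ => Real.log (1 + (Real.exp x - 1) * κ) - ρ * x + δ / 2 * ((τ + x) ^ 2 - τ ^ 2)) 0 := by
    refine Filter.Eventually.of_forall fun x => ?_
    have h7 := h x
    simpa using h7
  have h8 := hmin.hasDerivAt_eq_zero h6
  rw [Real.exp_zero] at h8
  norm_num at h8
  linarith

end Pool.Agent.Helper80.VR
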