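import Pool.Agent.Helper80.VR.DetGe
import Pool.Agent.Helper80.VR.MinPt
import Pool.Agent.Helper80.VR.Greedy

/-!
# VR-NC: near critical point

Proof. `ρ = r / n`, `Ψ t = log det (M v t) - ρ ∑ t i`. By `exists_basis_ge` (with any `t`) there is `f`
with `G v f ≠ 0`, so `M v t` is positive definite for all `t`, `det > 0`, and `Ψ` is continuous.
Let `g > 0` be the minimum of `(G v f)^2` over the finitely many `f` with `G v f ≠ 0`;
for each `t` the basis `f` of `exists_basis_ge` and `det_ge` give
`det (M v t) ≥ exp (∑ t (f k)) * g ≥ exp (ρ ∑ t i) * g`, so `Ψ t ≥ log g =: c0`.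
Choose `δ > 0` with `2 δ (Ψ 0 - c0) ≤ ε^2`, take `t` from `exists_min`. For `x : ℝ` and `i`, compare
with `s = Function.update t i (t i + x)`: `M v s = M v t + (exp (t i) * (exp x - 1)) • vecMulVec (v i) (v i)`,
so by `det_rank_one` `det (M v s) = det (M v t) * (1 + (exp x - 1) * κ)`,
`κ = exp (t i) * (v i ⬝ᵥ (M v t)⁻¹ *ᵥ v i)`, and minimality gives the hypothesis of `one_var`
(with `τ = t i`). So `κ - ρ = - δ t i`, `|δ t i| ≤ ε`.
-/

namespace Pool.Agent.Helper80.VR

open Finset

private theorem cont_det {ι : Type} [Fintype ι] {r : ℕ} (v : ι → Fin r → ℝ) :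
    Continuous fun t : ι → ℝ => (M v t).det := by
  apply Continuous.matrix_det
  unfold M
  refine continuous_finset_sum _ fun i _ => ?_
  exact (Real.continuous_exp.comp (continuous_apply i)).smul continuous_const

private theorem M_update {ι : Type} [Fintype ι] [DecidableEq ι] {r : ℕ} (v : ι → Fin r → ℝ)
    (t : ι → ℝ) (i : ι) (x : ℝ) :
    M v (Function.update t i (t i + x))
      = M v t + (Real.exp (t i) * (Real.exp x - 1)) • Matrix.vecMulVec (v i) (v i) := by
  unfold M
  rw [← Finset.add_sum_erase Finset.univ _ (Finset.mem_univ i),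
    ← Finset.add_sum_erase Finset.univ (fun j => Real.exp (t j) • Matrix.vecMulVec (v j) (v j))
      (Finset.mem_univ i)]
  have h : ∑ j ∈ Finset.univ.erase i,
      Real.exp (Function.update t i (t i + x) j) • Matrix.vecMulVec (v j) (v j)
      = ∑ j ∈ Finset.univ.erase i, Real.exp (t j) • Matrix.vecMulVec (v j) (v j) := by
    refine Finset.sum_congr rfl fun j hj => ?_
    rw [Function.update_of_ne (Finset.ne_of_mem_erase hj)]
  rw [h, Function.update_self, Real.exp_add, add_right_comm, ← add_smul]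
  congr 2
  ring

theorem near_critical {ι : Type} [Fintype ι] [Nonempty ι] {r : ℕ} (v : ι → Fin r → ℝ)
    (hU : ∀ U : Submodule ℝ (Fin r → ℝ), ∀ J : Finset ι, (∀ i ∈ J, v i ∈ U) →
      (r : ℝ) * #J ≤ (Fintype.card ι : ℝ) * Module.finrank ℝ U) (ε : ℝ) (hε : 0 < ε) :
    ∃ t : ι → ℝ, (M v t).PosDef ∧
      ∀ i, |Real.exp (t i) * (v i ⬝ᵥ (M v t)⁻¹.mulVec (v i)) - (r : ℝ) / Fintype.card ι| ≤ ε := by
  classical
  set ρ : ℝ := (r : ℝ) / Fintype.card ι with hρ
  obtain ⟨f0, hf0, _⟩ := exists_basis_ge v hU 0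
  have hpos : ∀ t, (M v t).PosDef := fun t => M_posDef v t f0 hf0
  have hdet : ∀ t, 0 < (M v t).det := fun t => (hpos t).det_pos
  set Ψ : (ι → ℝ) → ℝ := fun t => Real.log (M v t).det - ρ * ∑ i, t i with hΨ
  have hcont : Continuous Ψ := by
    apply Continuous.sub
    · exact (cont_det v).log fun t => (hdet t).ne'
    · exact continuous_const.mul (continuous_finset_sum _ fun i _ => continuous_apply i)
  -- the minimum of the squares of the nonzero minors
  set F : Finset (Fin r → ι) := Finset.univ.filter fun f => G v f ≠ 0 with hF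
  have hFne : F.Nonempty := ⟨f0, by rw [hF, Finset.mem_filter]; exact ⟨Finset.mem_univ _, hf0⟩⟩
  obtain ⟨f1, hf1, hmin⟩ := Finset.exists_min_image F (fun f => (G v f) ^ 2) hFne
  have hf1' : G v f1 ≠ 0 := (Finset.mem_filter.1 hf1).2
  have hg : 0 < (G v f1) ^ 2 := by positivity
  set c0 : ℝ := Real.log ((G v f1) ^ 2) with hc0
  have hlow : ∀ t, c0 ≤ Ψ t := by
    intro t
    obtain ⟨f, hf, hle⟩ := exists_basis_ge v hU t
    have h1 : (G v f1) ^ 2 ≤ (G v f) ^ 2 := hmin f (by
      rw [hF, Finset.mem_filter]; exact ⟨Finset.mem_univ _, hf⟩)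
    have h2 := det_ge v t f hf
    have h3 : Real.exp (ρ * ∑ i, t i) * (G v f1) ^ 2 ≤ (M v t).det := by
      refine le_trans ?_ h2
      have h4 : Real.exp (ρ * ∑ i, t i) ≤ Real.exp (∑ k, t (f k)) := Real.exp_le_exp.2 hle
      have h5 : 0 < Real.exp (ρ * ∑ i, t i) := Real.exp_pos _
      have h6 : 0 < Real.exp (∑ k, t (f k)) := Real.exp_pos _
      nlinarith
    have h7 := Real.log_le_log (by positivity) h3
    rw [Real.log_mul (Real.exp_pos _).ne' hg.ne', Real.log_exp] at h7
    simp only [hΨ]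
    linarith
  -- choice of delta
  set C : ℝ := Ψ 0 - c0 with hC
  have hC0 : 0 ≤ C := by
    have := hlow 0
    linarith
  set δ : ℝ := ε ^ 2 / (2 * (C + 1)) with hδ
  have hδ0 : 0 < δ := by positivity
  obtain ⟨t, ht1, ht2⟩ := exists_min Ψ hcont c0 hlow δ hδ0
  refine ⟨t, hpos t, fun i => ?_⟩
  set κ : ℝ := Real.exp (t i) * (v i ⬝ᵥ (M v t)⁻¹.mulVec (v i)) with hκ
  have hkey : κ - ρ + δ * t i = 0 := by
    apply one_var κ ρ δ (t i)
    intro x
    have h1 := ht1 (Function.update t i (t i + x))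
    have h2 : (M v (Function.update t i (t i + x))).det
        = (M v t).det * (1 + (Real.exp x - 1) * κ) := by
      rw [M_update, det_rank_one _ (isUnit_iff_ne_zero.2 (hdet t).ne')]
      congr 2
      rw [hκ]
      ring
    have h3 : 0 < 1 + (Real.exp x - 1) * κ := by
      have h4 := hdet (Function.update t i (t i + x))
      rw [h2] at h4
      exact (mul_pos_iff_of_pos_left (hdet t)).1 h4
    have h5 : ∑ j, Function.update t i (t i + x) j = ∑ j, t j + x := by
      rw [← Finset.add_sum_erase Finset.univ _ (Finset.mem_univ i),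
        ← Finset.add_sum_erase Finset.univ t (Finset.mem_univ i), Function.update_self]
      have : ∑ j ∈ Finset.univ.erase i, Function.update t i (t i + x) j
          = ∑ j ∈ Finset.univ.erase i, t j :=
        Finset.sum_congr rfl fun j hj => Function.update_of_ne (Finset.ne_of_mem_erase hj) _ _
      rw [this]
      ring
    have h6 : ∑ j, Function.update t i (t i + x) j ^ 2
        = ∑ j, t j ^ 2 + ((t i + x) ^ 2 - t i ^ 2) := by
      rw [← Finset.add_sum_erase Finset.univ _ (Finset.mem_univ i),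
        ← Finset.add_sum_erase Finset.univ (fun j => t j ^ 2) (Finset.mem_univ i),
        Function.update_self]
      have : ∑ j ∈ Finset.univ.erase i, Function.update t i (t i + x) j ^ 2
          = ∑ j ∈ Finset.univ.erase i, t j ^ 2 :=
        Finset.sum_congr rfl fun j hj => by
          rw [Function.update_of_ne (Finset.ne_of_mem_erase hj)]
      rw [this]
      ring
    simp only [hΨ] at h1
    rw [h2, h5, h6, Real.log_mul (hdet t).ne' h3.ne'] at h1
    nlinarith
  have h7 : κ - ρ = -(δ * t i) := by linarith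
  rw [h7, abs_neg]
  have h8 := ht2 i
  have h9 : (δ * t i) ^ 2 ≤ ε ^ 2 := by
    refine h8.trans ?_
    rw [hδ]
    have : 2 * (ε ^ 2 / (2 * (C + 1))) * C = ε ^ 2 * (C / (C + 1)) := by
      field_simp
    rw [this]
    have h10 : C / (C + 1) ≤ 1 := by
      rw [div_le_one (by linarith)]
      linarith
    have h11 : 0 ≤ ε ^ 2 := by positivity
    nlinarith
  exact abs_le_of_sq_le_sq h9 hε.le

end Pool.Agent.Helper80.VR
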