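import Pool.Agent.Helper80.VR.Defs

/-!
# VR-PI: vectors in a plane

Proof. View `u i` in `EuclideanSpace ℝ (Fin r)` (`WithLp.toLp 2 (u i)`; the inner product is the
dot product), let `S` be the span of the `u i`, `i ∈ P`, `d = finrank S ≤ 2`, and take an orthonormal
basis `b : Fin d → S` (`stdOrthonormalBasis`). With `α i k = ⟪b k, u i⟫`:
`u i ⬝ᵥ u j = ∑ k, α i k * α j k` (for i, j in P). Hence
`∑ i j, (u i ⬝ᵥ u j)^2 = ∑ k l, (∑ i, α i k * α i l)^2 ≥ ∑ k, (∑ i, α i k ^ 2)^2`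
`≥ (1/d) (∑ k, ∑ i, α i k ^2)^2` (`sq_sum_le_card_mul_sum_sq`) and `∑ k, α i k ^2 = u i ⬝ᵥ u i`.
(If `d = 0` everything is `0`.)  Any other proof is fine.
-/

namespace Pool.Agent.Helper80.VR

open Finset

theorem planar {ι : Type} {r : ℕ} (u : ι → Fin r → ℝ) (P : Finset ι)
    (hP : Module.finrank ℝ (Submodule.span ℝ (u '' (P : Set ι))) ≤ 2) :
    (∑ i ∈ P, u i ⬝ᵥ u i) ^ 2 / 2 ≤ ∑ i ∈ P, ∑ j ∈ P, (u i ⬝ᵥ u j) ^ 2 := by
  classical
  obtain ⟨w, hw⟩ : ∃ w : ι → EuclideanSpace ℝ (Fin r), ∀ i, w i = WithLp.toLp 2 (u i) := ⟨_, fun _ => rfl⟩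
  have hin : ∀ i j, inner ℝ (w i) (w j) = u i ⬝ᵥ u j := by
    intro i j
    rw [hw, hw, EuclideanSpace.inner_toLp_toLp, star_trivial, dotProduct_comm]
  obtain ⟨S, hS⟩ : ∃ S : Submodule ℝ (EuclideanSpace ℝ (Fin r)), S = Submodule.span ℝ (w '' (P : Set ι)) := ⟨_, rfl⟩
  have hfr : Module.finrank ℝ S ≤ 2 := by
    have h1 : S = (Submodule.span ℝ (u '' (P : Set ι))).map
        (WithLp.linearEquiv 2 ℝ (Fin r → ℝ)).symm.toLinearMap := by
      rw [Submodule.map_span, hS, ← Set.image_comp]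
      congr 1
      refine Set.image_congr fun i _ => ?_
      rw [hw]
      rfl
    rw [h1]
    exact (LinearEquiv.finrank_map_eq (WithLp.linearEquiv 2 ℝ (Fin r → ℝ)).symm _).trans_le hP
  have hmem : ∀ i ∈ P, w i ∈ S := by
    intro i hi
    rw [hS]
    exact Submodule.subset_span ⟨i, hi, rfl⟩
  obtain ⟨b, -⟩ : ∃ b : OrthonormalBasis (Fin (Module.finrank ℝ S)) ℝ S, b = b := ⟨stdOrthonormalBasis ℝ S, rfl⟩
  obtain ⟨α, hα⟩ : ∃ α : ι → Fin (Module.finrank ℝ S) → ℝ, ∀ i k, α i k = inner ℝ (w i) ((b k : S) : EuclideanSpace ℝ (Fin r)) :=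
    ⟨_, fun _ _ => rfl⟩
  have hdot : ∀ i ∈ P, ∀ j ∈ P, u i ⬝ᵥ u j = ∑ k, α i k * α j k := by
    intro i hi j hj
    have h1 := b.sum_inner_mul_inner ⟨w i, hmem i hi⟩ ⟨w j, hmem j hj⟩
    rw [← hin]
    have h2 : inner ℝ (⟨w i, hmem i hi⟩ : S) (⟨w j, hmem j hj⟩ : S) = inner ℝ (w i) (w j) := rfl
    rw [← h2, ← h1]
    refine Finset.sum_congr rfl fun k _ => ?_
    rw [hα, hα, real_inner_comm (⟨w j, hmem j hj⟩ : S) (b k)]
    rfl
  have e1 : ∑ i ∈ P, ∑ j ∈ P, (∑ k, α i k * α j k) ^ 2 = ∑ k, ∑ l, (∑ i ∈ P, α i k * α i l) ^ 2 := by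
    have e2 : ∀ i j, (∑ k, α i k * α j k) ^ 2 = ∑ k, ∑ l, (α i k * α i l) * (α j k * α j l) := by
      intro i j
      rw [sq, Finset.sum_mul_sum]
      exact Finset.sum_congr rfl fun k _ => Finset.sum_congr rfl fun l _ => by ring
    have e3 : ∀ k l, (∑ i ∈ P, α i k * α i l) ^ 2 = ∑ i ∈ P, ∑ j ∈ P, (α i k * α i l) * (α j k * α j l) := by
      intro k l
      rw [sq, Finset.sum_mul_sum]
    rw [Finset.sum_congr rfl fun i _ => Finset.sum_congr rfl fun j _ => e2 i j,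
      Finset.sum_congr rfl fun k _ => Finset.sum_congr rfl fun l _ => e3 k l]
    rw [Finset.sum_congr rfl fun i _ => Finset.sum_comm (s := P) (t := Finset.univ), Finset.sum_comm (s := P)]
    refine Finset.sum_congr rfl fun k _ => ?_
    rw [Finset.sum_congr rfl fun i _ => Finset.sum_comm (s := P) (t := Finset.univ), Finset.sum_comm (s := P)]
  have e4 : ∑ i ∈ P, u i ⬝ᵥ u i = ∑ k, ∑ i ∈ P, α i k * α i k := by
    rw [Finset.sum_comm]
    exact Finset.sum_congr rfl fun i hi => hdot i hi i hi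
  have e5 : ∑ i ∈ P, ∑ j ∈ P, (u i ⬝ᵥ u j) ^ 2 = ∑ k, ∑ l, (∑ i ∈ P, α i k * α i l) ^ 2 := by
    rw [← e1]
    exact Finset.sum_congr rfl fun i hi => Finset.sum_congr rfl fun j hj => by rw [hdot i hi j hj]
  have e6 : ∑ k, (∑ i ∈ P, α i k * α i k) ^ 2 ≤ ∑ k, ∑ l, (∑ i ∈ P, α i k * α i l) ^ 2 := by
    refine Finset.sum_le_sum fun k _ => ?_
    exact Finset.single_le_sum (f := fun l => (∑ i ∈ P, α i k * α i l) ^ 2) (fun l _ => sq_nonneg _) (Finset.mem_univ k)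
  have e7 := sq_sum_le_card_mul_sum_sq (s := Finset.univ) (f := fun k => ∑ i ∈ P, α i k * α i k)
  rw [Finset.card_univ, Fintype.card_fin] at e7
  have h0 : 0 ≤ ∑ k, (∑ i ∈ P, α i k * α i k) ^ 2 := Finset.sum_nonneg fun k _ => sq_nonneg _
  have h1 : ((Module.finrank ℝ S : ℕ) : ℝ) ≤ 2 := by exact_mod_cast hfr
  rw [e4, e5]
  have h2 := mul_le_mul_of_nonneg_right h1 h0
  linarith

end Pool.Agent.Helper80.VR
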