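import Pool.Agent.Helper80.VR.Frame
import Pool.Agent.Helper80.VR.Limit
import Pool.Agent.Helper80.VR.Near
import Pool.Agent.Helper80.VR.Iso
import Pool.Agent.Helper80.VR.LineSys

/-!
# VR: an index on many lines
-/

namespace Pool.Agent.Helper80.VR

open Finset

theorem exists_rich {ι : Type} [Fintype ι] [DecidableEq ι] [Nonempty ι] {r : ℕ} (hr : 1 ≤ r)
    (v : ι → Fin r → ℝ)
    (hp : ∀ i j, i ≠ j → LinearIndependent ℝ ![v i, v j])
    (hU : ∀ U : Submodule ℝ (Fin r → ℝ), ∀ J : Finset ι, (∀ i ∈ J, v i ∈ U) →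
      (r : ℝ) * #J ≤ (Fintype.card ι : ℝ) * Module.finrank ℝ U) :
    ∃ i : ι, (Fintype.card ι : ℝ) * (1 - 2 / r) + 1 ≤ #{P ∈ lines v | i ∈ P} := by
  refine exists_avg (lines v) (linear_lines v hp) r (by exact_mod_cast hr) ?_
  refine limit_ineq (lines v) r _ ?_
  intro ε hε
  obtain ⟨t, ht, hk⟩ := near_critical v hU ε hε
  obtain ⟨A, c, hc, hfr, hnorm⟩ := exists_frame v t ht
  refine ⟨fun i => (c i • A (v i)) ⬝ᵥ (c i • A (v i)), ?_, ?_⟩
  · intro i
    show |(c i • A (v i)) ⬝ᵥ (c i • A (v i)) - (r : ℝ) / Fintype.card ι| ≤ ε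
    rw [hnorm i]
    exact hk i
  · exact frame_ineq (fun i => c i • A (v i)) hfr (lines v) (linear_lines v hp)
      (finrank_line v A c)

end Pool.Agent.Helper80.VR
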